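import Mathlib

/-!
# Project BG (MP_a4e7e3): moments and products of sample means

* `moment_ratio`: a log-convex sequence with bounded total decrease decreases slowly later on.
* `block_sq`: the mean square deviation of a product of `s` independent sample means.
-/

set_option autoImplicit false

open MeasureTheory Set ProbabilityTheory

namespace Pool.Agent.Helper80.BG

lemma moment_ratio (a : ℕ → ℝ) (hpos : ∀ t, 0 < a t)
    (hconv : ∀ t, a (t + 1) ^ 2 ≤ a t * a (t + 2)) (α K : ℝ) (hα : 0 < α)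
    (h1 : a 1 ≤ K * α) (hlow : ∀ t, α ≤ a t) (s : ℕ) (hs : 1 ≤ s) (hK : Real.log K ≤ s)
    (t : ℕ) (ht : s ≤ t) : a t ≤ Real.exp 1 * a (t + 1) := by
  have hKpos : 0 < K := by
    by_contra h
    have : K * α ≤ 0 := mul_nonpos_of_nonpos_of_nonneg (not_lt.mp h) hα.le
    linarith [hpos 1]
  have hR : ∀ u, a (u + 1) / a (u + 2) ≤ a u / a (u + 1) := by
    intro u
    rw [div_le_div_iff₀ (hpos _) (hpos _)]
    have := hconv u
    nlinarith
  have hRmono : ∀ u v, u ≤ v → a v / a (v + 1) ≤ a u / a (u + 1) := by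
    intro u v huv
    induction v, huv using Nat.le_induction with
    | base => exact le_rfl
    | succ v _ ih => exact (hR v).trans ih
  have hdown : ∀ j, j ≤ s → (a s / a (s + 1)) ^ j * a (s + 1) ≤ a (s + 1 - j) := by
    intro j
    induction j with
    | zero => intro _; simp
    | succ j ih =>
      intro hj
      have h2 := ih (by omega)
      have h3 : a s / a (s + 1) ≤ a (s + 1 - (j + 1)) / a (s + 1 - j) := by
        have h4 := hRmono (s + 1 - (j + 1)) s (by omega)
        have h5 : s + 1 - (j + 1) + 1 = s + 1 - j := by omega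
        rwa [h5] at h4
      rw [pow_succ']
      calc a s / a (s + 1) * (a s / a (s + 1)) ^ j * a (s + 1)
          = a s / a (s + 1) * ((a s / a (s + 1)) ^ j * a (s + 1)) := by ring
        _ ≤ a (s + 1 - (j + 1)) / a (s + 1 - j) * a (s + 1 - j) :=
            mul_le_mul h3 h2 (by have := hpos s; have := hpos (s + 1); positivity)
              (div_nonneg (hpos _).le (hpos _).le)
        _ = a (s + 1 - (j + 1)) := div_mul_cancel₀ _ (hpos _).ne'
  have h6 : (a s / a (s + 1)) ^ s ≤ K := by
    have h7 := hdown s le_rfl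
    rw [Nat.add_sub_cancel_left] at h7
    have h8 : (a s / a (s + 1)) ^ s * α ≤ K * α :=
      (mul_le_mul_of_nonneg_left (hlow (s + 1))
        (by have := hpos s; have := hpos (s + 1); positivity)).trans (h7.trans h1)
    exact le_of_mul_le_mul_right h8 hα
  have h9 : a s / a (s + 1) ≤ Real.exp 1 := by
    by_contra h
    push Not at h
    have h10 : Real.exp 1 ^ s < (a s / a (s + 1)) ^ s :=
      pow_lt_pow_left₀ h (Real.exp_pos _).le (by omega)
    have h11 : K ≤ Real.exp 1 ^ s := by
      rw [← Real.exp_nat_mul, mul_one, ← Real.log_le_iff_le_exp hKpos]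
      exact hK
    linarith
  have h12 := (hRmono s t ht).trans h9
  rwa [div_le_iff₀ (hpos _)] at h12

variable {X : Type*} [MeasurableSpace X] (ν : Measure X) [IsProbabilityMeasure ν]

/-- Mean and mean square of the sample mean of `b` independent copies of `f`. -/
lemma block_one {f : X → ℝ} (hf : Measurable f) (hf01 : ∀ x, f x ^ 2 = f x) (b : ℕ) (hb : 1 ≤ b) :
    (∫ c : Fin b → X, (∑ j, f (c j)) / b ∂(Measure.pi fun _ => ν) = ∫ x, f x ∂ν) ∧
    (∫ c : Fin b → X, ((∑ j, f (c j)) / b) ^ 2 ∂(Measure.pi fun _ => ν) =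
      (∫ x, f x ∂ν) ^ 2 + ((∫ x, f x ∂ν) - (∫ x, f x ∂ν) ^ 2) / b) := by
  have hfb : ∀ x, |f x| ≤ 1 := by
    intro x
    have := hf01 x
    rw [abs_le]
    constructor <;> nlinarith [sq_nonneg (f x)]
  have hmem : MemLp f 2 ν := MemLp.of_bound hf.aestronglyMeasurable 1
    (Filter.Eventually.of_forall fun x => by rw [Real.norm_eq_abs]; exact hfb x)
  have hb0 : (b : ℝ) ≠ 0 := by positivity
  have hmp : ∀ j : Fin b, MeasurePreserving (fun c : Fin b → X => c j)
      (Measure.pi fun _ => ν) ν := fun j => measurePreserving_eval (fun _ => ν) j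
  have hE : ∀ j : Fin b, ∫ c : Fin b → X, f (c j) ∂(Measure.pi fun _ => ν) = ∫ x, f x ∂ν := by
    intro j
    exact integral_comp_eval (μ := fun _ : Fin b => ν) (i := j) hf.aestronglyMeasurable
  have hmemj : ∀ j : Fin b, MemLp (fun c : Fin b → X => f (c j)) 2 (Measure.pi fun _ => ν) :=
    fun j => hmem.comp_measurePreserving (hmp j)
  have hsum : ∫ c : Fin b → X, ∑ j, f (c j) ∂(Measure.pi fun _ => ν) = b * ∫ x, f x ∂ν := by
    rw [integral_finsetSum _ fun j _ => (hmemj j).integrable (by norm_num)]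
    simp_rw [hE]
    rw [Finset.sum_const, Finset.card_univ, Fintype.card_fin, nsmul_eq_mul]
  constructor
  · rw [integral_div, hsum]
    field_simp
  · have hvar := variance_sum_pi (μ := fun _ : Fin b => ν) (X := fun _ : Fin b => f)
      (fun _ => hmem)
    have hmemsum : MemLp (∑ j, fun c : Fin b → X => f (c j)) 2 (Measure.pi fun _ => ν) :=
      memLp_finsetSum' _ fun j _ => hmemj j
    rw [variance_eq_sub hmemsum] at hvar
    rw [Finset.sum_const, Finset.card_univ, Fintype.card_fin, nsmul_eq_mul,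
      variance_eq_sub hmem] at hvar
    have e1 : (∫ c : Fin b → X, (∑ j, fun c : Fin b → X => f (c j)) c
        ∂(Measure.pi fun _ => ν)) = b * ∫ x, f x ∂ν := by
      rw [← hsum]
      simp
    have e2 : ∫ x, (f ^ 2) x ∂ν = ∫ x, f x ∂ν := by
      refine integral_congr_ae (Filter.Eventually.of_forall fun x => ?_)
      simp only [Pi.pow_apply]
      exact hf01 x
    rw [e1, e2] at hvar
    have e3 : ∫ c : Fin b → X, ((∑ j, f (c j)) / b) ^ 2 ∂(Measure.pi fun _ => ν) =
        (∫ c : Fin b → X, ((∑ j, fun c : Fin b → X => f (c j)) ^ 2) c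
          ∂(Measure.pi fun _ => ν)) / (b : ℝ) ^ 2 := by
      rw [← integral_div]
      refine integral_congr_ae (Filter.Eventually.of_forall fun c => ?_)
      simp only [Pi.pow_apply, Finset.sum_apply]
      rw [div_pow]
    rw [e3]
    have e4 : ∫ c : Fin b → X, ((∑ j, fun c : Fin b → X => f (c j)) ^ 2) c
          ∂(Measure.pi fun _ => ν) =
        b * ((∫ x, f x ∂ν) - (∫ x, f x ∂ν) ^ 2) + (b * ∫ x, f x ∂ν) ^ 2 := by
      linarith
    rw [e4]
    field_simp
    ring

lemma block_sq {f : X → ℝ} (hf : Measurable f) (hf01 : ∀ x, f x ^ 2 = f x) (s b : ℕ)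
    (hb : 1 ≤ b) :
    ∫ c : Fin s → Fin b → X, ((∏ i, (∑ j, f (c i j)) / b) - (∫ x, f x ∂ν) ^ s) ^ 2
        ∂(Measure.pi fun _ => Measure.pi fun _ => ν) =
      ((∫ x, f x ∂ν) ^ 2 + ((∫ x, f x ∂ν) - (∫ x, f x ∂ν) ^ 2) / b) ^ s -
        ((∫ x, f x ∂ν) ^ s) ^ 2 := by
  obtain ⟨h1, h2⟩ := block_one ν hf hf01 b hb
  set p : ℝ := ∫ x, f x ∂ν with hp
  have hfb : ∀ x, |f x| ≤ 1 := by
    intro x
    have := hf01 x
    rw [abs_le]
    constructor <;> nlinarith [sq_nonneg (f x)]
  set F : (Fin b → X) → ℝ := fun c => (∑ j, f (c j)) / b with hF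
  have hFm : Measurable F := by
    refine Measurable.div_const (Finset.measurable_sum _ fun j _ => ?_) _
    exact hf.comp (measurable_pi_apply j)
  have hFb : ∀ c, |F c| ≤ 1 := by
    intro c
    rw [hF]
    simp only
    rw [abs_div, Nat.abs_cast, div_le_one (by positivity)]
    refine (Finset.abs_sum_le_sum_abs _ _).trans ?_
    refine (Finset.sum_le_sum fun j _ => hfb (c j)).trans ?_
    simp
  have hGm : Measurable (fun c : Fin s → Fin b → X => ∏ i, F (c i)) := by
    refine Finset.measurable_prod _ fun i _ => ?_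
    exact hFm.comp (measurable_pi_apply i)
  have hGb : ∀ c : Fin s → Fin b → X, |∏ i, F (c i)| ≤ 1 := by
    intro c
    rw [Finset.abs_prod]
    exact Finset.prod_le_one (fun i _ => abs_nonneg _) fun i _ => hFb _
  have hGint : Integrable (fun c : Fin s → Fin b → X => ∏ i, F (c i))
      (Measure.pi fun _ => Measure.pi fun _ => ν) :=
    Integrable.of_bound (C := 1) hGm.aestronglyMeasurable
      (Filter.Eventually.of_forall fun x => by rw [Real.norm_eq_abs]; exact hGb x)
  have hG2int : Integrable (fun c : Fin s → Fin b → X => (∏ i, F (c i)) ^ 2)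
      (Measure.pi fun _ => Measure.pi fun _ => ν) :=
    Integrable.of_bound (C := 1) (hGm.pow_const 2).aestronglyMeasurable
      (Filter.Eventually.of_forall fun x => by
        rw [Real.norm_eq_abs, abs_pow]
        exact pow_le_one₀ (abs_nonneg _) (hGb x))
  have e1 : ∫ c : Fin s → Fin b → X, ∏ i, F (c i)
      ∂(Measure.pi fun _ => Measure.pi fun _ => ν) = p ^ s := by
    rw [integral_fintype_prod_eq_pow (ι := Fin s) F, Fintype.card_fin, h1]
  have e2 : ∫ c : Fin s → Fin b → X, (∏ i, F (c i)) ^ 2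
      ∂(Measure.pi fun _ => Measure.pi fun _ => ν) = (p ^ 2 + (p - p ^ 2) / b) ^ s := by
    have e3 : (fun c : Fin s → Fin b → X => (∏ i, F (c i)) ^ 2) =
        fun c => ∏ i, (F (c i)) ^ 2 := by
      funext c
      rw [Finset.prod_pow]
    rw [e3, integral_fintype_prod_eq_pow (ι := Fin s) (fun c => F c ^ 2), Fintype.card_fin, h2]
  have e4 : (fun c : Fin s → Fin b → X => ((∏ i, F (c i)) - p ^ s) ^ 2) =
      fun c => ((∏ i, F (c i)) ^ 2 - 2 * p ^ s * ∏ i, F (c i)) + (p ^ s) ^ 2 := by
    funext c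
    ring
  have i1 : Integrable (fun c : Fin s → Fin b → X =>
      (∏ i, F (c i)) ^ 2 - 2 * p ^ s * ∏ i, F (c i))
      (Measure.pi fun _ => Measure.pi fun _ => ν) := hG2int.sub (hGint.const_mul _)
  rw [e4, integral_add i1 (integrable_const _), integral_sub hG2int (hGint.const_mul _),
    integral_const_mul, e1, e2, integral_const, smul_eq_mul]
  simp only [probReal_univ, one_mul]
  ring

end Pool.Agent.Helper80.BG
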