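import Mathlib

/-!
# Project BG (MP_a4e7e3): Fourier analysis on the torus

`parseval`: the autocorrelation of a bounded measurable real function on the torus is a sum of
characters with nonnegative weights. `integral_mFourier`: characters are orthogonal to constants.
-/

set_option autoImplicit false

open MeasureTheory Set
open scoped ComplexConjugate ENNReal

namespace Pool.Agent.Helper80.BG

lemma volume_eq_haar : (volume : Measure UnitAddCircle) = AddCircle.haarAddCircle := by
  rw [AddCircle.volume_eq_smul_haarAddCircle]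
  simp

lemma volume_pi_eq (d : ℕ) : (volume : Measure (Fin d → UnitAddCircle)) =
    Measure.pi (fun _ => AddCircle.haarAddCircle) := by
  rw [volume_pi, volume_eq_haar]

instance : IsProbabilityMeasure (volume : Measure UnitAddCircle) := by
  rw [volume_eq_haar]
  infer_instance

lemma measurable_mFourier {d : ℕ} (n : Fin d → ℤ) :
    Measurable (fun x => UnitAddTorus.mFourier n x) :=
  (UnitAddTorus.mFourier n).continuous.measurable

lemma norm_mFourier_apply {d : ℕ} (n : Fin d → ℤ) (x : Fin d → UnitAddCircle) :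
    ‖UnitAddTorus.mFourier n x‖ = 1 := by
  simp only [UnitAddTorus.mFourier, ContinuousMap.coe_mk, norm_prod, fourier_apply,
    Circle.norm_coe, Finset.prod_const_one]

lemma mFourier_add_arg {d : ℕ} (n : Fin d → ℤ) (x y : Fin d → UnitAddCircle) :
    UnitAddTorus.mFourier n (x + y) =
      UnitAddTorus.mFourier n x * UnitAddTorus.mFourier n y := by
  simp only [UnitAddTorus.mFourier, ContinuousMap.coe_mk, ← Finset.prod_mul_distrib]
  refine Finset.prod_congr rfl fun i _ => ?_
  simp only [fourier_apply, Pi.add_apply, smul_add, AddCircle.toCircle_add, Circle.coe_mul]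

lemma mFourier_neg_arg {d : ℕ} (n : Fin d → ℤ) (x : Fin d → UnitAddCircle) :
    UnitAddTorus.mFourier n (-x) = conj (UnitAddTorus.mFourier n x) := by
  rw [← UnitAddTorus.mFourier_neg]
  simp only [UnitAddTorus.mFourier, ContinuousMap.coe_mk]
  refine Finset.prod_congr rfl fun i _ => ?_
  simp only [fourier_apply, Pi.neg_apply, smul_neg, neg_smul]

/-- Characters are orthogonal to constants. -/
theorem integral_mFourier {d : ℕ} (n : Fin d → ℤ) :
    ∫ x : Fin d → UnitAddCircle, UnitAddTorus.mFourier n x = if n = 0 then 1 else 0 := by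
  classical
  split_ifs with h
  · subst h
    simp [UnitAddTorus.mFourier_zero]
  · obtain ⟨i, hi⟩ := Function.ne_iff.mp h
    refine integral_eq_zero_of_add_right_eq_neg
      (g := Pi.single i (((1 : ℝ) / 2 / (n i : ℝ) : ℝ) : UnitAddCircle)) fun x => ?_
    rw [mFourier_add_arg]
    have e : UnitAddTorus.mFourier n
        (Pi.single i (((1 : ℝ) / 2 / (n i : ℝ) : ℝ) : UnitAddCircle)) = -1 := by
      simp only [UnitAddTorus.mFourier, ContinuousMap.coe_mk]
      rw [Finset.prod_eq_single i]
      · rw [Pi.single_eq_same]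
        have := fourier_add_half_inv_index (T := 1) hi one_pos (0 : UnitAddCircle)
        rw [zero_add, fourier_eval_zero] at this
        exact this
      · intro j _ hj
        rw [Pi.single_eq_of_ne hj, fourier_eval_zero]
      · intro hi'
        exact absurd (Finset.mem_univ i) hi'
    rw [e, mul_neg_one]

theorem parseval {d : ℕ} (h : (Fin d → UnitAddCircle) → ℝ) (hm : Measurable h)
    (hb : ∀ x, |h x| ≤ 1) :
    ∃ w : (Fin d → ℤ) → ℝ, (∀ n, 0 ≤ w n) ∧
      ∀ v, HasSum (fun n => w n * (UnitAddTorus.mFourier n v).re) (∫ x, h (x + v) * h x) := by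
  have hmeas : ∀ v : Fin d → UnitAddCircle, MemLp (fun x => ((h (x + v) : ℝ) : ℂ)) 2
      (Measure.pi (fun _ : Fin d => (AddCircle.haarAddCircle : Measure UnitAddCircle))) := by
    intro v
    refine MemLp.of_bound (C := 1) ?_ ?_
    · exact (Complex.measurable_ofReal.comp (hm.comp (measurable_add_const v))).aestronglyMeasurable
    · refine Filter.Eventually.of_forall fun x => ?_
      rw [Complex.norm_real]
      exact hb _
  have key := fun (f g : Lp ℂ 2 (Measure.pi
      (fun _ : Fin d => (AddCircle.haarAddCircle : Measure UnitAddCircle)))) =>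
    UnitAddTorus.hasSum_prod_mFourierCoeff (d := Fin d) f g
  set P : Measure (Fin d → UnitAddCircle) := Measure.pi
      (fun _ : Fin d => (AddCircle.haarAddCircle : Measure UnitAddCircle)) with hP
  have hPv : (volume : Measure (Fin d → UnitAddCircle)) = P := volume_pi_eq d
  -- the Fourier coefficients of the translates
  set c : (Fin d → ℤ) → ℂ := fun n => ∫ x, UnitAddTorus.mFourier (-n) x * (h x : ℂ) ∂P with hc
  have hcoef : ∀ (v : Fin d → UnitAddCircle) (n : Fin d → ℤ),
      UnitAddTorus.mFourierCoeff ((hmeas v).toLp _) n = UnitAddTorus.mFourier n v * c n := by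
    intro v n
    have e1 : UnitAddTorus.mFourierCoeff ((hmeas v).toLp _) n =
        ∫ x, UnitAddTorus.mFourier (-n) x * ((h (x + v) : ℝ) : ℂ) ∂P := by
      unfold UnitAddTorus.mFourierCoeff
      refine integral_congr_ae ?_
      filter_upwards [(hmeas v).coeFn_toLp] with x hx
      rw [hx, smul_eq_mul]
    have e2 : ∫ x, UnitAddTorus.mFourier (-n) x * ((h (x + v) : ℝ) : ℂ) ∂P =
        ∫ x, UnitAddTorus.mFourier (-n) (x - v) * ((h x : ℝ) : ℂ) ∂P := by
      rw [← hPv]
      rw [← integral_add_right_eq_self (fun x : Fin d → UnitAddCircle =>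
        UnitAddTorus.mFourier (-n) (x - v) * ((h x : ℝ) : ℂ)) v]
      simp only [add_sub_cancel_right]
    rw [e1, e2, hc, ← integral_const_mul]
    refine integral_congr_ae (Filter.Eventually.of_forall fun x => ?_)
    simp only
    rw [sub_eq_add_neg, mFourier_add_arg, mFourier_neg_arg, UnitAddTorus.mFourier_neg (x := v),
      Complex.conj_conj]
    ring
  refine ⟨fun n => ‖c n‖ ^ 2, fun n => by positivity, fun v => ?_⟩
  have h1 := key ((hmeas 0).toLp _) ((hmeas v).toLp _)
  have h2 := Complex.hasSum_re h1
  have e3 : (∫ x, conj (((hmeas 0).toLp _ : (Fin d → UnitAddCircle) → ℂ) x) *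
      (((hmeas v).toLp _ : (Fin d → UnitAddCircle) → ℂ) x) ∂P) =
      ((∫ x, h (x + v) * h x : ℝ) : ℂ) := by
    rw [← integral_complex_ofReal, hPv]
    refine integral_congr_ae ?_
    filter_upwards [(hmeas 0).coeFn_toLp, (hmeas v).coeFn_toLp] with x hx hx'
    rw [hx, hx', Complex.conj_ofReal, add_zero]
    push_cast
    ring
  have h3 : (∫ x, conj (((hmeas 0).toLp _ : (Fin d → UnitAddCircle) → ℂ) x) *
      (((hmeas v).toLp _ : (Fin d → UnitAddCircle) → ℂ) x) ∂P).re =
      (∫ x, h (x + v) * h x : ℝ) := by
    rw [e3, Complex.ofReal_re]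
  rw [← h3]
  refine h2.congr_fun ?_
  intro n
  have e0 : UnitAddTorus.mFourier n (0 : Fin d → UnitAddCircle) = 1 := by
    simp only [UnitAddTorus.mFourier, ContinuousMap.coe_mk, Pi.zero_apply, fourier_eval_zero,
      Finset.prod_const_one]
  rw [hcoef, hcoef, e0, one_mul, mul_left_comm, ← Complex.normSq_eq_conj_mul_self,
    Complex.normSq_eq_norm_sq]
  simp only [Complex.re_mul_ofReal]
  ring

end Pool.Agent.Helper80.BG
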