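import Pool.Agent.Helper80.BG.Fourier

/-!
# Project BG (MP_a4e7e3): few independent characters are close to 1 on a large set
-/

set_option autoImplicit false

open MeasureTheory Set
open scoped ComplexConjugate ENNReal

namespace Pool.Agent.Helper80.BG

/-- Coefficients of the majorant `11/16 + (z + 1/z)/8 + (z^2 + 1/z^2)/32`. -/
private noncomputable def cf : Fin 5 → ℝ := ![1 / 32, 1 / 8, 11 / 16, 1 / 8, 1 / 32]

private def ex : Fin 5 → ℤ := ![-2, -1, 0, 1, 2]

private lemma ex_eq_zero {k : Fin 5} (h : ex k = 0) : k = 2 := by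
  revert h
  fin_cases k <;> simp [ex]

lemma mFourier_zsmul {d : ℕ} (n : Fin d → ℤ) (k : ℤ) (x : Fin d → UnitAddCircle) :
    UnitAddTorus.mFourier (k • n) x = UnitAddTorus.mFourier n x ^ k := by
  simp only [UnitAddTorus.mFourier, ContinuousMap.coe_mk, fourier_apply, Pi.smul_apply,
    smul_eq_mul]
  rw [← Finset.prod_zpow]
  refine Finset.prod_congr rfl fun i _ => ?_
  rw [mul_smul, AddCircle.toCircle_zsmul, Circle.coe_zpow]

lemma mFourier_sum {d r : ℕ} (n : Fin r → (Fin d → ℤ)) (x : Fin d → UnitAddCircle) :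
    UnitAddTorus.mFourier (∑ i, n i) x = ∏ i, UnitAddTorus.mFourier (n i) x := by
  classical
  induction (Finset.univ : Finset (Fin r)) using Finset.induction_on with
  | empty => simp [UnitAddTorus.mFourier_zero]
  | insert a s ha ih =>
    rw [Finset.prod_insert ha, Finset.sum_insert ha, UnitAddTorus.mFourier_add, ih]

/-- The majorant. -/
private noncomputable def maj (c : ℝ) : ℝ := 5 / 8 + c / 4 + c ^ 2 / 8

private lemma exp_le_maj {c : ℝ} (h1 : c ≤ 1) : Real.exp (-(1 - c) / 2) ≤ maj c := by
  have hy : 0 ≤ (1 - c) / 2 := by linarith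
  have h2 := Real.quadratic_le_exp_of_nonneg hy
  have h3 : -(1 - c) / 2 = -((1 - c) / 2) := by ring
  rw [h3, Real.exp_neg]
  rw [inv_le_iff_one_le_mul₀ (Real.exp_pos _)]
  set y := (1 - c) / 2 with hyd
  have h4 : maj c = 1 - y + y ^ 2 / 2 := by rw [maj, hyd]; ring
  rw [h4]
  have h5 : 0 ≤ 1 - y + y ^ 2 / 2 := by nlinarith [sq_nonneg (y - 1)]
  calc (1 : ℝ) ≤ (1 - y + y ^ 2 / 2) * (1 + y + y ^ 2 / 2) := by nlinarith [sq_nonneg (y ^ 2)]
    _ ≤ (1 - y + y ^ 2 / 2) * Real.exp y := mul_le_mul_of_nonneg_left h2 h5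

private lemma maj_eq {z : ℂ} (hz : ‖z‖ = 1) :
    ((maj z.re : ℝ) : ℂ) = ∑ k : Fin 5, (cf k : ℂ) * z ^ (ex k) := by
  have hz0 : z ≠ 0 := by
    intro h
    rw [h, norm_zero] at hz
    exact zero_ne_one hz
  have hinv : z⁻¹ = conj z := by
    rw [Complex.inv_def, Complex.normSq_eq_norm_sq, hz]
    simp
  have hre : (z.re : ℂ) = (z + z⁻¹) / 2 := by
    rw [hinv, Complex.re_eq_add_conj]
  simp only [Fin.sum_univ_five, cf, ex, maj]
  push_cast
  rw [hre]
  have e1 : z ^ (-2 : ℤ) = (z⁻¹) ^ 2 := by
    rw [zpow_neg, ← inv_zpow]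
    rfl
  have e2 : z ^ (-1 : ℤ) = z⁻¹ := zpow_neg_one z
  have e3 : z ^ (2 : ℤ) = z ^ 2 := rfl
  rw [e1, e2, e3, zpow_zero, zpow_one]
  have e4 : z * z⁻¹ = 1 := mul_inv_cancel₀ hz0
  linear_combination (1 / 16 : ℂ) * e4

theorem integral_prod_maj {d r : ℕ} (χ : Fin r → (Fin d → ℤ)) (hχ : LinearIndependent ℤ χ) :
    ∫ x : Fin d → UnitAddCircle, ∏ i, maj (UnitAddTorus.mFourier (χ i) x).re =
      (11 / 16 : ℝ) ^ r := by
  classical
  have h1 : ∀ x : Fin d → UnitAddCircle,
      ((∏ i, maj (UnitAddTorus.mFourier (χ i) x).re : ℝ) : ℂ) =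
      ∑ κ : Fin r → Fin 5, (∏ i, (cf (κ i) : ℂ)) *
        UnitAddTorus.mFourier (∑ i, ex (κ i) • χ i) x := by
    intro x
    push_cast
    have e : ∀ i, ((maj (UnitAddTorus.mFourier (χ i) x).re : ℝ) : ℂ) =
        ∑ k : Fin 5, (cf k : ℂ) * UnitAddTorus.mFourier (χ i) x ^ (ex k) := fun i =>
      maj_eq (norm_mFourier_apply _ _)
    rw [Finset.prod_congr rfl fun i _ => e i, Finset.prod_univ_sum, Fintype.piFinset_univ]
    refine Finset.sum_congr rfl fun κ _ => ?_
    rw [mFourier_sum, ← Finset.prod_mul_distrib]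
    refine Finset.prod_congr rfl fun i _ => ?_
    rw [mFourier_zsmul]
  have h2 : ((∫ x : Fin d → UnitAddCircle,
      ∏ i, maj (UnitAddTorus.mFourier (χ i) x).re : ℝ) : ℂ) = (((11 / 16 : ℝ) ^ r : ℝ) : ℂ) := by
    rw [← integral_complex_ofReal]
    simp_rw [h1]
    rw [integral_finsetSum]
    · simp_rw [integral_const_mul, integral_mFourier]
      rw [Finset.sum_eq_single (fun _ => (2 : Fin 5))]
      · simp [cf, ex, div_pow]
      · intro κ _ hκ
        rw [if_neg, mul_zero]
        intro h0
        apply hκ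
        funext i
        have := (Fintype.linearIndependent_iff.mp hχ) (fun i => ex (κ i)) h0 i
        exact ex_eq_zero this
      · intro h
        exact absurd (Finset.mem_univ _) h
    · intro κ _
      refine Integrable.const_mul ?_ _
      refine Integrable.of_bound (C := 1) (measurable_mFourier _).aestronglyMeasurable ?_
      exact Filter.Eventually.of_forall fun x => (norm_mFourier_apply _ _).le
  exact_mod_cast h2

private lemma maj_nonneg (c : ℝ) : 0 ≤ maj c := by
  rw [maj]
  nlinarith [sq_nonneg (c + 1)]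

private lemma numeric : (11 / 16 : ℝ) * Real.exp (1 / 6) ≤ Real.exp (-(1 / 5)) := by
  have h1 : Real.exp (11 / 30) ≤ 16 / 11 := by
    have h := Real.exp_bound' (x := 11 / 30) (by norm_num) (by norm_num) (n := 3) (by norm_num)
    refine h.trans ?_
    simp only [Finset.sum_range_succ, Finset.sum_range_zero, Nat.factorial]
    norm_num
  have h2 : Real.exp (1 / 6) = Real.exp (11 / 30) * Real.exp (-(1 / 5)) := by
    rw [← Real.exp_add]
    norm_num
  rw [h2]
  have h3 := Real.exp_pos (-(1 / 5))
  nlinarith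

theorem indep_bound {d r : ℕ} (χ : Fin r → (Fin d → ℤ)) (hχ : LinearIndependent ℤ χ)
    (S : Set (Fin d → UnitAddCircle)) (hpos : 0 < (volume S).toReal)
    (h : ∀ i, ∫ x in S, (1 - (UnitAddTorus.mFourier (χ i) x).re) ≤ 1 / 3 * (volume S).toReal) :
    (r : ℝ) ≤ 5 * Real.log (1 / (volume S).toReal) := by
  classical
  set c : Fin r → (Fin d → UnitAddCircle) → ℝ := fun i x =>
    (UnitAddTorus.mFourier (χ i) x).re with hc
  have hcm : ∀ i, Measurable (c i) := fun i => Complex.measurable_re.comp (measurable_mFourier _)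
  have hc1 : ∀ i x, |c i x| ≤ 1 := by
    intro i x
    have := Complex.abs_re_le_norm (UnitAddTorus.mFourier (χ i) x)
    rwa [norm_mFourier_apply] at this
  have hint : ∀ i, Integrable (c i) (volume.restrict S) := fun i =>
    Integrable.of_bound (C := 1) (hcm i).aestronglyMeasurable
      (Filter.Eventually.of_forall fun x => by rw [Real.norm_eq_abs]; exact hc1 i x)
  set y : (Fin d → UnitAddCircle) → ℝ := fun x => ∑ i, (1 - c i x) / 2 with hy
  have hym : Measurable y := by
    refine Finset.measurable_sum _ fun i _ => ?_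
    exact (measurable_const.sub (hcm i)).div_const 2
  have hyint : Integrable y (volume.restrict S) := by
    refine integrable_finsetSum _ fun i _ => ?_
    exact ((integrable_const 1).sub (hint i)).div_const 2
  have hy0 : ∀ x, 0 ≤ y x := by
    intro x
    refine Finset.sum_nonneg fun i _ => ?_
    have := (abs_le.mp (hc1 i x)).2
    linarith
  -- the lower bound
  have hyI : ∫ x in S, y x ≤ (r : ℝ) / 6 * (volume S).toReal := by
    rw [hy, integral_finsetSum]
    · calc ∑ i : Fin r, ∫ x in S, (1 - c i x) / 2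
          ≤ ∑ _i : Fin r, (1 / 6 * (volume S).toReal) := by
            refine Finset.sum_le_sum fun i _ => ?_
            rw [integral_div]
            have := h i
            linarith
        _ = (r : ℝ) / 6 * (volume S).toReal := by
            rw [Finset.sum_const, Finset.card_univ, Fintype.card_fin, nsmul_eq_mul]
            ring
    · intro i _
      exact ((integrable_const 1).sub (hint i)).div_const 2
  have hexpint : Integrable (fun x => Real.exp (- y x)) (volume.restrict S) := by
    refine Integrable.of_bound (C := 1) hym.neg.exp.aestronglyMeasurable ?_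
    refine Filter.Eventually.of_forall fun x => ?_
    rw [Real.norm_eq_abs, abs_of_pos (Real.exp_pos _)]
    exact Real.exp_le_one_iff.mpr (by linarith [hy0 x])
  have hlow : Real.exp (-(r : ℝ) / 6) * (volume S).toReal ≤ ∫ x in S, Real.exp (- y x) := by
    have e1 : ∀ x, Real.exp (-(r : ℝ) / 6) * (1 + (r : ℝ) / 6 - y x) ≤ Real.exp (- y x) := by
      intro x
      have h1 := Real.add_one_le_exp ((r : ℝ) / 6 - y x)
      have h2 : Real.exp (- y x) = Real.exp (-(r : ℝ) / 6) * Real.exp ((r : ℝ) / 6 - y x) := by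
        rw [← Real.exp_add]
        congr 1
        ring
      rw [h2]
      refine mul_le_mul_of_nonneg_left ?_ (Real.exp_pos _).le
      linarith
    have e2 : ∫ x in S, Real.exp (-(r : ℝ) / 6) * (1 + (r : ℝ) / 6 - y x) ≤
        ∫ x in S, Real.exp (- y x) := by
      refine integral_mono ?_ hexpint e1
      exact ((integrable_const _).sub hyint).const_mul _
    have e3 : ∫ x in S, Real.exp (-(r : ℝ) / 6) * (1 + (r : ℝ) / 6 - y x) =
        Real.exp (-(r : ℝ) / 6) * ((1 + (r : ℝ) / 6) * (volume S).toReal - ∫ x in S, y x) := by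
      rw [integral_const_mul, integral_sub (integrable_const _) hyint, setIntegral_const]
      rw [smul_eq_mul, Measure.real]
      ring
    rw [e3] at e2
    refine le_trans ?_ e2
    refine mul_le_mul_of_nonneg_left ?_ (Real.exp_pos _).le
    linarith
  -- the upper bound
  have hup : ∫ x in S, Real.exp (- y x) ≤ (11 / 16 : ℝ) ^ r := by
    rw [← integral_prod_maj χ hχ]
    have hpm : Measurable (fun x => ∏ i, maj (c i x)) := by
      refine Finset.measurable_prod _ fun i _ => ?_
      unfold maj
      have := hcm i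
      fun_prop
    have hpi : Integrable (fun x => ∏ i, maj (c i x)) volume := by
      refine Integrable.of_bound (C := 1) hpm.aestronglyMeasurable ?_
      refine Filter.Eventually.of_forall fun x => ?_
      rw [Real.norm_eq_abs, Finset.abs_prod]
      refine Finset.prod_le_one (fun i _ => abs_nonneg _) fun i _ => ?_
      rw [abs_of_nonneg (maj_nonneg _), maj]
      have := abs_le.mp (hc1 i x)
      nlinarith
    calc ∫ x in S, Real.exp (- y x) ≤ ∫ x in S, ∏ i, maj (c i x) := by
          refine integral_mono hexpint hpi.integrableOn fun x => ?_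
          have e : Real.exp (- y x) = ∏ i, Real.exp (-(1 - c i x) / 2) := by
            rw [← Real.exp_sum, hy]
            congr 1
            rw [← Finset.sum_neg_distrib]
            refine Finset.sum_congr rfl fun i _ => ?_
            ring
          simp only
          rw [e]
          refine Finset.prod_le_prod (fun i _ => (Real.exp_pos _).le) fun i _ => ?_
          exact exp_le_maj (abs_le.mp (hc1 i x)).2
      _ ≤ ∫ x, ∏ i, maj (c i x) := by
          refine setIntegral_le_integral hpi ?_
          exact Filter.Eventually.of_forall fun x => Finset.prod_nonneg fun i _ => maj_nonneg _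
  -- combine
  have h3 : (volume S).toReal ≤ Real.exp (-(r : ℝ) / 5) := by
    have h4 := hlow.trans hup
    have h5 : (volume S).toReal ≤ ((11 / 16 : ℝ) * Real.exp (1 / 6)) ^ r := by
      rw [mul_pow, ← Real.exp_nat_mul]
      have h6 : Real.exp (-(r : ℝ) / 6) * Real.exp ((r : ℝ) * (1 / 6)) = 1 := by
        rw [← Real.exp_add]
        have e : -(r : ℝ) / 6 + (r : ℝ) * (1 / 6) = 0 := by ring
        rw [e, Real.exp_zero]
      calc (volume S).toReal = (Real.exp (-(r : ℝ) / 6) * (volume S).toReal) *
            Real.exp ((r : ℝ) * (1 / 6)) := by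
              rw [mul_right_comm, h6, one_mul]
        _ ≤ (11 / 16 : ℝ) ^ r * Real.exp ((r : ℝ) * (1 / 6)) :=
            mul_le_mul_of_nonneg_right h4 (Real.exp_pos _).le
    refine h5.trans ?_
    have h7 : Real.exp (-(r : ℝ) / 5) = Real.exp (-(1 / 5)) ^ r := by
      rw [← Real.exp_nat_mul]
      congr 1
      ring
    rw [h7]
    exact pow_le_pow_left₀ (by positivity) numeric r
  have h8 := Real.log_le_log hpos h3
  rw [Real.log_exp] at h8
  rw [one_div, Real.log_inv]
  linarith

end Pool.Agent.Helper80.BG
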