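import Mathlib

/-!
# Project BG (MP_a4e7e3): the subtorus killed by a set of characters

For every set `Z` of characters of the torus there are `r` independent characters in `Z` and a
closed subtorus of codimension `r` on which all characters in `Z` are trivial.
-/

set_option autoImplicit false

open MeasureTheory Set

namespace Pool.Agent.Helper80.BG

/-- A character in terms of the pairing with the point. -/
lemma mFourier_eq_toCircle {d : ℕ} (n : Fin d → ℤ) (x : Fin d → UnitAddCircle) :
    UnitAddTorus.mFourier n x = ((AddCircle.toCircle (∑ k, n k • x k) : Circle) : ℂ) := by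
  classical
  simp only [UnitAddTorus.mFourier, ContinuousMap.coe_mk, fourier_apply]
  induction (Finset.univ : Finset (Fin d)) using Finset.induction_on with
  | empty => simp
  | insert a s ha ih =>
    rw [Finset.prod_insert ha, Finset.sum_insert ha, AddCircle.toCircle_add, Circle.coe_mul, ih]

/-- Independent elements generating up to torsion. -/
lemma exists_indep {d : ℕ} (Z : Set (Fin d → ℤ)) (n : ℕ)
    (b : Module.Basis (Fin n) ℤ (Submodule.span ℤ Z)) :
    ∃ χ : Fin n → (Fin d → ℤ), (∀ i, χ i ∈ Z) ∧ LinearIndependent ℤ χ := by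
  classical
  -- the inclusion into the rational vector space
  let ι : (Fin d → ℤ) →ₗ[ℤ] (Fin d → ℚ) :=
    { toFun := fun v k => (v k : ℚ)
      map_add' := fun x y => by funext k; simp
      map_smul' := fun c x => by funext k; simp }
  have hι : Function.Injective ι := by
    intro x y h
    funext k
    have := congrFun h k
    simpa [ι] using this
  obtain ⟨B, hBs, hBspan, hBind⟩ := exists_linearIndependent ℚ (ι '' Z)
  have hBfin : B.Finite := hBind.setFinite
  haveI : Fintype B := hBfin.fintype
  -- the dimension count
  have h1 : LinearIndependent ℚ (fun i : Fin n => ι (b i : Fin d → ℤ)) := by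
    have h2 : LinearIndependent ℤ (fun i : Fin n => (b i : Fin d → ℤ)) := by
      have := b.linearIndependent.map' (Submodule.span ℤ Z).subtype (Submodule.ker_subtype _)
      exact this
    have h3 : LinearIndependent ℤ (fun i : Fin n => ι (b i : Fin d → ℤ)) :=
      h2.map' ι (LinearMap.ker_eq_bot.mpr hι)
    exact (LinearIndependent.iff_fractionRing ℤ ℚ).mp h3
  have hmem : ∀ i : Fin n, ι (b i : Fin d → ℤ) ∈ Submodule.span ℚ B := by
    intro i
    rw [hBspan]
    have h4 : (b i : Fin d → ℤ) ∈ Submodule.span ℤ Z := (b i).2
    have h5 : ι (b i : Fin d → ℤ) ∈ Submodule.map ι (Submodule.span ℤ Z) :=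
      Submodule.mem_map_of_mem h4
    rw [Submodule.map_span] at h5
    exact Submodule.span_le_restrictScalars ℤ ℚ _ h5
  have hcard : n ≤ Fintype.card B := by
    have h6 := LinearIndependent.fintype_card_le_finrank (R := ℚ)
      (b := fun i : Fin n => (⟨ι (b i : Fin d → ℤ), hmem i⟩ : Submodule.span ℚ B)) (by
        apply LinearIndependent.of_comp (Submodule.span ℚ B).subtype
        exact h1)
    rw [Fintype.card_fin, finrank_span_set_eq_card hBind] at h6
    rw [Set.toFinset_card] at h6
    exact h6
  -- choose preimages
  have hpre : ∀ x : B, ∃ z ∈ Z, ι z = x := fun x => hBs x.2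
  choose g hgZ hg using hpre
  obtain ⟨emb⟩ : Nonempty (Fin n ↪ B) :=
    Function.Embedding.nonempty_of_card_le (by rw [Fintype.card_fin]; exact hcard)
  refine ⟨fun i => g (emb i), fun i => hgZ _, ?_⟩
  apply LinearIndependent.of_comp ι
  have h7 : LinearIndependent ℚ (fun i : Fin n => ((emb i : B) : Fin d → ℚ)) :=
    hBind.comp emb emb.injective
  have h8 : (ι ∘ fun i => g (emb i)) = fun i : Fin n => ((emb i : B) : Fin d → ℚ) := by
    funext i
    exact hg _
  rw [h8]
  exact (LinearIndependent.iff_fractionRing ℤ ℚ).mpr h7

theorem lattice {d : ℕ} (Z : Set (Fin d → ℤ)) :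
    ∃ (r m : ℕ) (χ : Fin r → (Fin d → ℤ))
      (φ : (Fin m → UnitAddCircle) →+ (Fin d → UnitAddCircle)),
      m + r = d ∧ (∀ i, χ i ∈ Z) ∧ LinearIndependent ℤ χ ∧ Continuous φ ∧
      Function.Injective φ ∧ ∀ n ∈ Z, ∀ y, UnitAddTorus.mFourier n (φ y) = 1 := by
  classical
  obtain ⟨n, snf⟩ := Submodule.smithNormalForm (Pi.basisFun ℤ (Fin d)) (Submodule.span ℤ Z)
  obtain ⟨χ, hχ1, hχ2⟩ := exists_indep Z n snf.bN
  -- the index set of the free coordinates
  have hcard : Fintype.card {j : Fin d // j ∉ Set.range snf.f} = d - n := by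
    rw [Fintype.card_subtype_compl, Fintype.card_fin]
    congr 1
    have h1 : Fintype.card {x // x ∈ Set.range snf.f} = Fintype.card (Fin n) :=
      Set.card_range_of_injective snf.f.injective
    rw [h1, Fintype.card_fin]
  have hn : n ≤ d := by
    have := Fintype.card_le_of_embedding snf.f
    simpa using this
  let e : {j : Fin d // j ∉ Set.range snf.f} ≃ Fin (d - n) := Fintype.equivFinOfCardEq hcard
  -- extension by zero
  let ext : (Fin (d - n) → UnitAddCircle) → (Fin d → UnitAddCircle) := fun y i =>
    if h : i ∉ Set.range snf.f then y (e ⟨i, h⟩) else 0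
  let φf : (Fin (d - n) → UnitAddCircle) → (Fin d → UnitAddCircle) := fun y k =>
    ∑ i, snf.bM.repr (Pi.single k 1) i • ext y i
  have hext : ∀ y y', ext (y + y') = ext y + ext y' := by
    intro y y'
    funext i
    simp only [ext, Pi.add_apply]
    split_ifs <;> simp
  have hpair : ∀ (v : Fin d → ℤ) (y : Fin (d - n) → UnitAddCircle),
      ∑ k, v k • φf y k = ∑ i, snf.bM.repr v i • ext y i := by
    intro v y
    have e1 : ∀ i, snf.bM.repr v i = ∑ k, v k * snf.bM.repr (Pi.single k 1) i := by
      intro i
      have : v = ∑ k, v k • (Pi.single k 1 : Fin d → ℤ) := by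
        funext j
        simp [Finset.sum_apply, Pi.single_apply]
      conv_lhs => rw [this]
      rw [map_sum, Finsupp.finsetSum_apply]
      refine Finset.sum_congr rfl fun k _ => ?_
      rw [map_smul, Finsupp.smul_apply, smul_eq_mul]
    simp only [φf, Finset.smul_sum]
    rw [Finset.sum_comm]
    refine Finset.sum_congr rfl fun i _ => ?_
    rw [e1, Finset.sum_smul]
    refine Finset.sum_congr rfl fun k _ => ?_
    rw [mul_smul]
  refine ⟨n, d - n, χ, ⟨⟨φf, ?_⟩, ?_⟩, Nat.sub_add_cancel hn, hχ1, hχ2, ?_, ?_, ?_⟩
  · funext k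
    simp [φf, ext]
  · intro y y'
    funext k
    simp only [φf, hext, Pi.add_apply, smul_add, Finset.sum_add_distrib]
  · change Continuous φf
    refine continuous_pi fun k => continuous_finsetSum _ fun i _ => ?_
    refine Continuous.zsmul ?_ _
    simp only [ext]
    split_ifs
    · fun_prop
    · fun_prop
  · intro y y' hy
    have hy' : φf y = φf y' := hy
    funext j
    have h1 := hpair (snf.bM (e.symm j).1) y
    have h2 := hpair (snf.bM (e.symm j).1) y'
    rw [hy'] at h1
    have h3 := h1.symm.trans h2
    have h4 : ∀ y : Fin (d - n) → UnitAddCircle,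
        ∑ i, snf.bM.repr (snf.bM (e.symm j).1) i • ext y i = y j := by
      intro y
      rw [Finset.sum_eq_single (e.symm j).1]
      · rw [Module.Basis.repr_self, Finsupp.single_eq_same, one_smul]
        simp only [ext]
        rw [dif_pos (e.symm j).2]
        simp
      · intro i _ hi
        rw [Module.Basis.repr_self, Finsupp.single_eq_of_ne hi, zero_smul]
      · intro h
        exact absurd (Finset.mem_univ _) h
    rw [h4, h4] at h3
    exact h3
  · intro v hv y
    change UnitAddTorus.mFourier v (φf y) = 1
    rw [mFourier_eq_toCircle, hpair]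
    rw [Finset.sum_eq_zero]
    · simp
    · intro i _
      by_cases hi : i ∈ Set.range snf.f
      · have : ext y i = 0 := by
          simp only [ext]
          rw [dif_neg (by simpa using hi)]
        rw [this, smul_zero]
      · rw [snf.repr_eq_zero_of_notMem_range ⟨v, Submodule.subset_span hv⟩ hi, zero_smul]

end Pool.Agent.Helper80.BG
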