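import Pool.Agent.Helper80.BG.Indep
import Pool.Agent.Helper80.BG.Lattice

/-!
# Project BG (MP_a4e7e3): the L2 span lemma

If a bounded function `h` on the torus is moved by at most `1/4` of its squared `L2` norm by all
translations in a set `S`, then there is a closed subtorus of codimension at most
`5 log (1 / |S|)` on which the autocorrelation of `h` is at least `1/4` of its squared `L2` norm.
-/

set_option autoImplicit false

open MeasureTheory Set
open scoped ComplexConjugate ENNReal

namespace Pool.Agent.Helper80.BG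

theorem span_integral {d : ℕ} (h : (Fin d → UnitAddCircle) → ℝ) (hm : Measurable h)
    (hb : ∀ x, |h x| ≤ 1)
    (S : Set (Fin d → UnitAddCircle)) (hS : MeasurableSet S) (hSpos : 0 < (volume S).toReal)
    (hclose : ∀ t ∈ S, ∫ x, (h (x + t) - h x) ^ 2 ≤ 1 / 4 * ∫ x, h x ^ 2) :
    ∃ (m : ℕ) (φ : (Fin m → UnitAddCircle) →+ (Fin d → UnitAddCircle)),
      Continuous φ ∧ Function.Injective φ ∧
      (d : ℝ) - m ≤ 5 * Real.log (1 / (volume S).toReal) ∧
      ∀ y, 1 / 4 * ∫ x, h x ^ 2 ≤ ∫ x, h (x + φ y) * h x := by
  classical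
  obtain ⟨w, hw0, hw⟩ := parseval h hm hb
  set W : ℝ := ∫ x, h x ^ 2 with hW
  have hbint : ∀ (f : (Fin d → UnitAddCircle) → ℝ) (C : ℝ), Measurable f → (∀ x, |f x| ≤ C) →
      Integrable f volume := fun f C hf hC =>
    Integrable.of_bound (C := C) hf.aestronglyMeasurable
      (Filter.Eventually.of_forall fun x => by rw [Real.norm_eq_abs]; exact hC x)
  have hc0 : ∀ n, UnitAddTorus.mFourier n (0 : Fin d → UnitAddCircle) = 1 := by
    intro n
    simp only [UnitAddTorus.mFourier, ContinuousMap.coe_mk, Pi.zero_apply, fourier_eval_zero,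
      Finset.prod_const_one]
  have hsumw : HasSum w W := by
    have h1 := hw 0
    simp only [hc0, Complex.one_re, mul_one, add_zero] at h1
    rw [hW]
    simpa only [pow_two] using h1
  -- autocorrelation for `t ∈ S`
  have hcorr : ∀ t ∈ S, 7 / 8 * W ≤ ∫ x, h (x + t) * h x := by
    intro t ht
    have h1 := hclose t ht
    have hmt : Measurable (fun x => h (x + t)) := hm.comp (measurable_add_const t)
    have i1 : Integrable (fun x => h (x + t) ^ 2) volume := by
      refine hbint _ 1 (hmt.pow_const 2) fun x => ?_
      rw [abs_pow]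
      exact pow_le_one₀ (abs_nonneg _) (hb _)
    have i2 : Integrable (fun x => h x ^ 2) volume := by
      refine hbint _ 1 (hm.pow_const 2) fun x => ?_
      rw [abs_pow]
      exact pow_le_one₀ (abs_nonneg _) (hb _)
    have i3 : Integrable (fun x => h (x + t) * h x) volume := by
      refine hbint _ 1 (hmt.mul hm) fun x => ?_
      rw [abs_mul]
      exact mul_le_one₀ (hb _) (abs_nonneg _) (hb _)
    have h2 : ∫ x, (h (x + t) - h x) ^ 2 =
        (∫ x, h (x + t) ^ 2) + (∫ x, h x ^ 2) - 2 * ∫ x, h (x + t) * h x := by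
      have i4 : Integrable (fun x => h (x + t) ^ 2 + h x ^ 2) volume := i1.add i2
      rw [← integral_const_mul, ← integral_add i1 i2, ← integral_sub i4 (i3.const_mul 2)]
      refine integral_congr_ae (Filter.Eventually.of_forall fun x => ?_)
      simp only
      ring
    have h3 : ∫ x, h (x + t) ^ 2 = W := by
      rw [hW]
      exact integral_add_right_eq_self (fun x => h x ^ 2) t
    rw [h2, h3, ← hW] at h1
    linarith
  -- the masses
  set c : (Fin d → ℤ) → ℝ := fun n => ∫ x in S, (1 - (UnitAddTorus.mFourier n x).re) with hc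
  set σ : ℝ := (volume S).toReal with hσ
  have hrem : ∀ n : Fin d → ℤ, Measurable fun x => (UnitAddTorus.mFourier n x).re :=
    fun n => Complex.measurable_re.comp (measurable_mFourier _)
  have hre1 : ∀ (n : Fin d → ℤ) x, |(UnitAddTorus.mFourier n x).re| ≤ 1 := by
    intro n x
    have := Complex.abs_re_le_norm (UnitAddTorus.mFourier n x)
    rwa [norm_mFourier_apply] at this
  have hreint : ∀ n : Fin d → ℤ,
      Integrable (fun x => (UnitAddTorus.mFourier n x).re) (volume.restrict S) := fun n =>
    (hbint _ 1 (hrem n) (hre1 n)).integrableOn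
  have hcn : ∀ n, c n = σ - ∫ x in S, (UnitAddTorus.mFourier n x).re := by
    intro n
    rw [hc]
    simp only
    rw [integral_sub (integrable_const 1) (hreint n), setIntegral_const, smul_eq_mul, mul_one]
    rfl
  have hc_nonneg : ∀ n, 0 ≤ c n := by
    intro n
    refine setIntegral_nonneg hS fun x _ => ?_
    have := (abs_le.mp (hre1 n x)).2
    linarith
  have hsumc : HasSum (fun n => w n * ∫ x in S, (UnitAddTorus.mFourier n x).re)
      (∫ t in S, ∫ x, h (x + t) * h x) := by
    have h1 := hasSum_integral_of_summable_integral_norm (μ := volume.restrict S)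
      (F := fun n t => w n * (UnitAddTorus.mFourier n t).re)
      (fun n => (hreint n).const_mul _) (by
        refine Summable.of_nonneg_of_le (f := fun n => w n * σ) (fun n => ?_) (fun n => ?_)
          (hsumw.summable.mul_right σ)
        · exact integral_nonneg fun x => norm_nonneg _
        · have e1 : ∫ x in S, ‖w n * (UnitAddTorus.mFourier n x).re‖ ≤ ∫ _x in S, w n := by
            refine integral_mono ?_ (integrable_const _) fun x => ?_
            · exact ((hreint n).const_mul _).norm
            · simp only
              rw [norm_mul, Real.norm_eq_abs, Real.norm_eq_abs, abs_of_nonneg (hw0 n)]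
              exact mul_le_of_le_one_right (hw0 n) (hre1 n x)
          rw [setIntegral_const, smul_eq_mul, mul_comm] at e1
          exact e1)
    simp_rw [integral_const_mul] at h1
    have e2 : (∫ t in S, ∑' n, w n * (UnitAddTorus.mFourier n t).re) =
        ∫ t in S, ∫ x, h (x + t) * h x := by
      refine integral_congr_ae (Filter.Eventually.of_forall fun t => ?_)
      exact (hw t).tsum_eq
    rwa [e2] at h1
  have hlow : 7 / 8 * W * σ ≤ ∫ t in S, ∫ x, h (x + t) * h x := by
    have e1 : 7 / 8 * W * σ = ∫ _t in S, (7 / 8 * W) := by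
      rw [setIntegral_const, smul_eq_mul, mul_comm]
      rfl
    rw [e1]
    refine setIntegral_mono_on (integrable_const _) ?_ hS hcorr
    have hmm : Measurable (fun t => ∫ x, h (x + t) * h x) := by
      have : StronglyMeasurable (fun p : (Fin d → UnitAddCircle) × (Fin d → UnitAddCircle) =>
          h (p.2 + p.1) * h p.2) := by
        apply Measurable.stronglyMeasurable
        exact (hm.comp (measurable_snd.add measurable_fst)).mul (hm.comp measurable_snd)
      exact this.integral_prod_right'.measurable
    refine (hbint _ 1 hmm fun t => ?_).integrableOn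
    have h1 : ‖∫ x, h (x + t) * h x‖ ≤ 1 * (volume.real (univ : Set (Fin d → UnitAddCircle))) := by
      refine norm_integral_le_of_norm_le_const (Filter.Eventually.of_forall fun x => ?_)
      rw [norm_mul, Real.norm_eq_abs, Real.norm_eq_abs]
      exact mul_le_one₀ (hb _) (abs_nonneg _) (hb _)
    rw [Real.norm_eq_abs] at h1
    simpa using h1
  have hsumwc : HasSum (fun n => w n * c n) (W * σ - ∫ t in S, ∫ x, h (x + t) * h x) := by
    have h1 := (hsumw.mul_right σ).sub hsumc
    refine h1.congr_fun fun n => ?_
    rw [hcn]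
    ring
  -- the good characters
  set Z : Set (Fin d → ℤ) := {n | c n ≤ 1 / 3 * σ} with hZ
  obtain ⟨r, m, χ, φ, hmr, hχZ, hχ, hφc, hφi, hφ⟩ := lattice Z
  refine ⟨m, φ, hφc, hφi, ?_, ?_⟩
  · have h1 := indep_bound χ hχ S hSpos (fun i => hχZ i)
    have h2 : (d : ℝ) = m + r := by
      rw [← hmr]
      push_cast
      ring
    rw [h2]
    linarith
  · intro y
    have h2 := hw (φ y)
    have h3 : HasSum (fun n => w n - 6 / σ * (w n * c n))
        (W - 6 / σ * (W * σ - ∫ t in S, ∫ x, h (x + t) * h x)) :=
      hsumw.sub (hsumwc.mul_left (6 / σ))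
    have h4 := hasSum_le (fun n => ?_) h3 h2
    · have h5 : 6 / σ * (W * σ - ∫ t in S, ∫ x, h (x + t) * h x) ≤ 6 / σ * (1 / 8 * W * σ) := by
        refine mul_le_mul_of_nonneg_left ?_ (by positivity)
        linarith
      have h6 : 6 / σ * (1 / 8 * W * σ) = 3 / 4 * W := by
        field_simp
        ring
      rw [h6] at h5
      linarith
    · by_cases hn : n ∈ Z
      · rw [hφ n hn y, Complex.one_re, mul_one]
        have := mul_nonneg (div_nonneg (by norm_num : (0:ℝ) ≤ 6) hSpos.le)
          (mul_nonneg (hw0 n) (hc_nonneg n))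
        linarith
      · have hn' : 1 / 3 * σ < c n := by
          simpa [hZ] using hn
        have e1 : 2 ≤ 6 / σ * c n := by
          rw [div_mul_eq_mul_div, le_div_iff₀ hSpos]
          linarith
        have e2 := (abs_le.mp (hre1 n (φ y))).1
        have e3 : w n - 6 / σ * (w n * c n) = w n * (1 - 6 / σ * c n) := by ring
        rw [e3]
        refine mul_le_mul_of_nonneg_left ?_ (hw0 n)
        linarith

theorem span_lemma {d : ℕ} (h : (Fin d → UnitAddCircle) → ℝ) (hm : Measurable h)
    (hb : ∀ x, |h x| ≤ 1) (hpos : 0 < ∫ x, h x ^ 2)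
    (S : Set (Fin d → UnitAddCircle)) (hS : MeasurableSet S) (hSpos : 0 < (volume S).toReal)
    (hclose : ∀ t ∈ S, ∫ x, (h (x + t) - h x) ^ 2 ≤ 6 / 25 * ∫ x, h x ^ 2) :
    ∃ (m : ℕ) (φ : (Fin m → UnitAddCircle) →+ (Fin d → UnitAddCircle)),
      Continuous φ ∧ Function.Injective φ ∧
      (d : ℝ) - m ≤ 5 * Real.log (1 / (volume S).toReal) ∧
      ∀ y, ∃ x, h (x + φ y) ≠ 0 ∧ h x ≠ 0 := by
  obtain ⟨m, φ, h1, h2, h3, h4⟩ := span_integral h hm hb S hS hSpos
    (fun t ht => (hclose t ht).trans (by linarith))
  refine ⟨m, φ, h1, h2, h3, fun y => ?_⟩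
  by_contra hcon
  push Not at hcon
  have h5 : ∫ x, h (x + φ y) * h x = 0 := by
    rw [← integral_zero (Fin d → UnitAddCircle) ℝ]
    refine integral_congr_ae (Filter.Eventually.of_forall fun x => ?_)
    simp only
    by_cases hx : h (x + φ y) = 0
    · rw [hx, zero_mul]
    · rw [hcon x hx, mul_zero]
  have h6 := h4 y
  rw [h5] at h6
  linarith

/-- The case of an indicator function, with measures of sets only. -/
theorem set_span {d : ℕ} (B T : Set (Fin d → UnitAddCircle)) (hB : MeasurableSet B)
    (hT : MeasurableSet T) (hBpos : 0 < (volume B).toReal) (hTpos : 0 < (volume T).toReal)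
    (hclose : ∀ t ∈ T, (volume {b | b ∈ B ∧ b + t ∉ B}).toReal ≤ (volume B).toReal / 8) :
    ∃ (m : ℕ) (φ : (Fin m → UnitAddCircle) →+ (Fin d → UnitAddCircle)),
      Continuous φ ∧ Function.Injective φ ∧
      (d : ℝ) - m ≤ 5 * Real.log (1 / (volume T).toReal) ∧
      ∀ y, ∃ x, x + φ y ∈ B ∧ x ∈ B := by
  set h : (Fin d → UnitAddCircle) → ℝ := B.indicator (fun _ => (1 : ℝ)) with hh
  have hm : Measurable h := measurable_const.indicator hB
  have hval : ∀ x, h x = 0 ∨ h x = 1 := by
    intro x
    by_cases hx : x ∈ B
    · right; rw [hh, indicator_of_mem hx]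
    · left; rw [hh, indicator_of_notMem hx]
  have hb : ∀ x, |h x| ≤ 1 := by
    intro x
    rcases hval x with h0 | h1
    · rw [h0]; norm_num
    · rw [h1]; norm_num
  have hsq : ∀ x, h x ^ 2 = h x := by
    intro x
    rcases hval x with h0 | h1
    · rw [h0]; norm_num
    · rw [h1]; norm_num
  have hint : ∀ V : Set (Fin d → UnitAddCircle), MeasurableSet V →
      ∫ x, V.indicator (fun _ => (1 : ℝ)) x = (volume V).toReal := by
    intro V hV
    rw [integral_indicator hV, setIntegral_const, smul_eq_mul, mul_one]
    rfl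
  have hW : ∫ x, h x ^ 2 = (volume B).toReal := by
    simp_rw [hsq]
    exact hint B hB
  have hcl : ∀ t ∈ T, ∫ x, (h (x + t) - h x) ^ 2 ≤ 1 / 4 * ∫ x, h x ^ 2 := by
    intro t ht
    have hBt : MeasurableSet ((fun x => x + t) ⁻¹' B) := (measurable_add_const t) hB
    have e0 : ∀ x, h (x + t) = ((fun x => x + t) ⁻¹' B).indicator (fun _ => (1 : ℝ)) x := by
      intro x
      by_cases hx : x + t ∈ B
      · rw [hh, indicator_of_mem hx, indicator_of_mem (show x ∈ (fun x => x + t) ⁻¹' B from hx)]
      · rw [hh, indicator_of_notMem hx,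
          indicator_of_notMem (show x ∉ (fun x => x + t) ⁻¹' B from hx)]
    set D : Set (Fin d → UnitAddCircle) := {b | b ∈ B ∧ b + t ∉ B} with hD
    have hDm : MeasurableSet D := hB.inter hBt.compl
    have e1 : ∀ x, (h (x + t) - h x) ^ 2 = h (x + t) - h x +
        2 * D.indicator (fun _ => (1 : ℝ)) x := by
      intro x
      by_cases hx : x ∈ B
      · by_cases hxt : x + t ∈ B
        · have : x ∉ D := fun hc => hc.2 hxt
          rw [hh, indicator_of_mem hx, indicator_of_mem hxt, indicator_of_notMem this]
          norm_num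
        · have : x ∈ D := ⟨hx, hxt⟩
          rw [hh, indicator_of_mem hx, indicator_of_notMem hxt, indicator_of_mem this]
          norm_num
      · have : x ∉ D := fun hc => hx hc.1
        by_cases hxt : x + t ∈ B
        · rw [hh, indicator_of_notMem hx, indicator_of_mem hxt, indicator_of_notMem this]
          norm_num
        · rw [hh, indicator_of_notMem hx, indicator_of_notMem hxt, indicator_of_notMem this]
          norm_num
    have i1 : Integrable (fun x => h (x + t)) volume :=
      Integrable.of_bound (C := 1) (hm.comp (measurable_add_const t)).aestronglyMeasurable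
        (Filter.Eventually.of_forall fun x => by rw [Real.norm_eq_abs]; exact hb _)
    have i2 : Integrable h volume :=
      Integrable.of_bound (C := 1) hm.aestronglyMeasurable
        (Filter.Eventually.of_forall fun x => by rw [Real.norm_eq_abs]; exact hb _)
    have i3 : Integrable (D.indicator (fun _ => (1 : ℝ))) volume :=
      (integrable_const _).indicator hDm
    have i4 : Integrable (fun x => h (x + t) - h x) volume := i1.sub i2
    simp_rw [e1]
    rw [integral_add i4 (i3.const_mul 2), integral_sub i1 i2, integral_const_mul,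
      integral_add_right_eq_self (fun x => h x) t, sub_self, zero_add, hint D hDm, hW]
    have := hclose t ht
    linarith
  obtain ⟨m, φ, h1, h2, h3, h4⟩ := span_integral h hm hb T hT hTpos hcl
  refine ⟨m, φ, h1, h2, h3, fun y => ?_⟩
  by_contra hcon
  push Not at hcon
  have h5 : ∫ x, h (x + φ y) * h x = 0 := by
    rw [← integral_zero (Fin d → UnitAddCircle) ℝ]
    refine integral_congr_ae (Filter.Eventually.of_forall fun x => ?_)
    simp only
    by_cases hx : x + φ y ∈ B
    · rw [hh, indicator_of_notMem (hcon x hx), mul_zero]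
    · rw [hh, indicator_of_notMem hx, zero_mul]
  have h6 := h4 y
  rw [h5, hW] at h6
  linarith

end Pool.Agent.Helper80.BG
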