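import Pool.Agent.Helper80.BG.Sample
import Pool.Agent.Helper80.BG.Span

/-!
# Project BG (MP_a4e7e3): the cubic theorem
-/

set_option autoImplicit false

open MeasureTheory Set
open scoped ENNReal Pointwise

namespace Pool.Agent.Helper80.BG

theorem core {d : ℕ} (A : Set (Fin d → UnitAddCircle)) (hA : MeasurableSet A)
    (hAA : MeasurableSet (A + A)) (hpos : 0 < (volume A).toReal) (K : ℝ)
    (hK : (volume (A + A)).toReal ≤ K * (volume A).toReal) (s : ℕ) (hs : 1 ≤ s)
    (hKs : Real.log K ≤ s) :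
    ∃ (m : ℕ) (φ : (Fin m → UnitAddCircle) →+ (Fin d → UnitAddCircle)),
      Continuous φ ∧ Function.Injective φ ∧
      (d : ℝ) - m ≤ 5 * Real.log (2 * K ^ (s * (60 * s)) / (volume A).toReal) ∧
      Set.range φ ⊆ {y | ∃ a b : Fin 3 → (Fin d → UnitAddCircle),
        (∀ l, a l ∈ A) ∧ (∀ l, b l ∈ A) ∧ y = (∑ l, a l) - (∑ l, b l)} := by
  obtain ⟨h, hm, hb, hh, hsupp, hSm, hS⟩ := sample (volume : Measure (Fin d → UnitAddCircle))
    A (A + A) hA hAA (fun a ha b hb => Set.add_mem_add ha hb) hpos K hK s hs hKs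
  set S : Set (Fin d → UnitAddCircle) :=
    {t | ∫ x, (h (x + t) - h x) ^ 2 ≤ 6 / 25 * ∫ x, h x ^ 2} with hSdef
  have hKpos : 0 < K := by
    by_contra hcon
    have h1 : K * (volume A).toReal ≤ 0 :=
      mul_nonpos_of_nonpos_of_nonneg (not_lt.mp hcon) hpos.le
    have h2 : (volume (A + A)).toReal = 0 := le_antisymm (hK.trans h1) ENNReal.toReal_nonneg
    obtain ⟨a, ha⟩ : A.Nonempty := by
      by_contra hne
      rw [not_nonempty_iff_eq_empty] at hne
      rw [hne, measure_empty] at hpos
      simp at hpos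
    have h3 : (volume A).toReal ≤ (volume (A + A)).toReal := by
      refine ENNReal.toReal_mono (measure_ne_top _ _) ?_
      have h4 : volume ((fun x => a + x) ⁻¹' (A + A)) = volume (A + A) :=
        measure_preimage_add volume a (A + A)
      rw [← h4]
      refine measure_mono fun x hx => ?_
      exact Set.add_mem_add ha hx
    linarith
  have hpos' : 0 < (volume A).toReal / (2 * K ^ (s * (60 * s))) := by positivity
  have hSpos : 0 < (volume S).toReal := hpos'.trans_le hS
  obtain ⟨m, φ, hφc, hφi, hφ1, hφ2⟩ := span_lemma h hm hb hh S hSm hSpos (fun t ht => ht)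
  refine ⟨m, φ, hφc, hφi, hφ1.trans ?_, ?_⟩
  · refine mul_le_mul_of_nonneg_left ?_ (by norm_num)
    refine Real.log_le_log (by positivity) ?_
    have h5 : 1 / (volume S).toReal ≤ 1 / ((volume A).toReal / (2 * K ^ (s * (60 * s)))) :=
      one_div_le_one_div_of_le hpos' hS
    rwa [one_div_div] at h5
  · rintro _ ⟨y, rfl⟩
    obtain ⟨x, hx1, hx2⟩ := hφ2 y
    obtain ⟨a, ha, b1, hb1, b2, hb2, hab⟩ := hsupp _ hx1
    obtain ⟨a', ha', b3, hb3, b4, hb4, hab'⟩ := hsupp _ hx2
    refine ⟨![b1, b2, a'], ![b3, b4, a], ?_, ?_, ?_⟩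
    · intro l
      fin_cases l
      · exact hb1
      · exact hb2
      · exact ha'
    · intro l
      fin_cases l
      · exact hb3
      · exact hb4
      · exact ha
    · simp only [Fin.sum_univ_three, Matrix.cons_val_zero, Matrix.cons_val_one, Matrix.cons_val]
      simp only at hab hab'
      have e1 : b1 + b2 + a' - (b3 + b4 + a) = (x + φ y + a) + a' - ((x + a') + a) := by
        rw [← hab, ← hab']
      rw [e1]
      abel

end Pool.Agent.Helper80.BG
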