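import Mathlib

/-!
# Project BG (MP_a4e7e3): the pigeonhole step and powers of conditioned measures
-/

set_option autoImplicit false

open MeasureTheory Set ProbabilityTheory
open scoped ENNReal

namespace Pool.Agent.Helper80.BG

/-- Pigeonhole: some point `z` has many `t ∈ A` with `z - Δ t ∈ Γ`. -/
lemma pigeon {G H : Type*} [MeasurableSpace G] [MeasurableSpace H] [AddCommGroup H]
    [MeasurableAdd₂ H] [MeasurableNeg H] (μ : Measure G) [IsProbabilityMeasure μ] (κ : Measure H)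
    [IsProbabilityMeasure κ] [κ.IsAddLeftInvariant] (Δ : G → H) (hΔ : Measurable Δ)
    (A : Set G) (hA : MeasurableSet A) (Γ W : Set H) (hΓ : MeasurableSet Γ)
    (hW : MeasurableSet W) (hsub : ∀ a ∈ Γ, ∀ t ∈ A, a + Δ t ∈ W) (hpos : 0 < μ A * κ Γ) :
    ∃ z, μ A * κ Γ ≤ κ W * μ {t | t ∈ A ∧ z - Δ t ∈ Γ} := by
  have hmeas : MeasurableSet {p : H × G | p.2 ∈ A ∧ p.1 - Δ p.2 ∈ Γ} := by
    refine (measurable_snd hA).inter ?_
    exact (measurable_fst.sub (hΔ.comp measurable_snd)) hΓ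
  -- the double count
  have h1 : ∫⁻ z, μ {t | t ∈ A ∧ z - Δ t ∈ Γ} ∂κ = μ A * κ Γ := by
    have e1 := Measure.prod_apply (μ := κ) (ν := μ) hmeas
    have e2 := Measure.prod_apply_symm (μ := κ) (ν := μ) hmeas
    have e3 : ∀ z : H, (Prod.mk z ⁻¹' {p : H × G | p.2 ∈ A ∧ p.1 - Δ p.2 ∈ Γ}) =
        {t | t ∈ A ∧ z - Δ t ∈ Γ} := fun z => rfl
    simp_rw [e3] at e1
    rw [← e1, e2]
    have e4 : ∀ t : G, κ ((fun x => (x, t)) ⁻¹' {p : H × G | p.2 ∈ A ∧ p.1 - Δ p.2 ∈ Γ}) =
        A.indicator (fun _ => κ Γ) t := by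
      intro t
      by_cases ht : t ∈ A
      · rw [indicator_of_mem ht]
        have e5 : ((fun x => (x, t)) ⁻¹' {p : H × G | p.2 ∈ A ∧ p.1 - Δ p.2 ∈ Γ}) =
            (fun x => x + (-Δ t)) ⁻¹' Γ := by
          ext x
          simp only [mem_preimage, mem_setOf_eq, ht, true_and, sub_eq_add_neg]
        rw [e5, measure_preimage_add_right]
      · rw [indicator_of_notMem ht]
        have e5 : ((fun x => (x, t)) ⁻¹' {p : H × G | p.2 ∈ A ∧ p.1 - Δ p.2 ∈ Γ}) = ∅ := by
          ext x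
          simp [ht]
        rw [e5, measure_empty]
    simp_rw [e4]
    rw [lintegral_indicator hA, lintegral_const, Measure.restrict_apply_univ, mul_comm]
  have h2 : ∫⁻ z in W, μ {t | t ∈ A ∧ z - Δ t ∈ Γ} ∂κ = μ A * κ Γ := by
    rw [← h1, ← lintegral_indicator hW]
    refine lintegral_congr fun z => ?_
    by_cases hz : z ∈ W
    · rw [indicator_of_mem hz]
    · rw [indicator_of_notMem hz]
      have e5 : {t | t ∈ A ∧ z - Δ t ∈ Γ} = ∅ := by
        ext t
        simp only [mem_setOf_eq, mem_empty_iff_false, iff_false, not_and]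
        intro ht h
        apply hz
        have := hsub _ h t ht
        rwa [sub_add_cancel] at this
      rw [e5, measure_empty]
  have hW0 : κ W ≠ 0 := by
    intro h0
    rw [Measure.restrict_eq_zero.mpr h0, lintegral_zero_measure] at h2
    rw [← h2] at hpos
    exact lt_irrefl _ hpos
  have hfin : ∫⁻ z in W, μ {t | t ∈ A ∧ z - Δ t ∈ Γ} ∂κ ≠ ∞ := by
    rw [h2]
    exact ENNReal.mul_ne_top (measure_ne_top _ _) (measure_ne_top _ _)
  obtain ⟨z, -, hz⟩ := exists_setLAverage_le hW0 hW.nullMeasurableSet hfin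
  refine ⟨z, ?_⟩
  rw [setLAverage_eq, h2, ENNReal.div_le_iff hW0 (measure_ne_top _ _)] at hz
  rwa [mul_comm (κ W)]

lemma pi_scale {X : Type*} [MeasurableSpace X] (n : ℕ) (ρ ν : Measure X) [SigmaFinite ρ]
    [SigmaFinite ν] (c : ℝ≥0∞) (h : ν = c • ρ) :
    Measure.pi (fun _ : Fin n => ν) = c ^ n • Measure.pi (fun _ : Fin n => ρ) := by
  refine Measure.pi_eq fun s hs => ?_
  rw [Measure.smul_apply, Measure.pi_pi, h, smul_eq_mul]
  simp only [Measure.smul_apply, smul_eq_mul]
  rw [Finset.prod_mul_distrib, Finset.prod_const, Finset.card_univ, Fintype.card_fin]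

/-- The double power of a conditioned measure. -/
lemma pi_pi_cond {X : Type*} [MeasurableSpace X] (s b : ℕ) (μ : Measure X)
    [IsProbabilityMeasure μ] (A : Set X) (hA : μ A ≠ 0) (hAm : MeasurableSet A)
    (Γ : Set (Fin s → Fin b → X)) (hΓ : MeasurableSet Γ) :
    (Measure.pi fun _ : Fin s => Measure.pi fun _ : Fin b => μ)
        (Γ ∩ {c | ∀ i j, c i j ∈ A}) =
      μ A ^ (s * b) *
        (Measure.pi fun _ : Fin s => Measure.pi fun _ : Fin b => (ProbabilityTheory.cond μ A)) Γ := by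
  haveI : IsProbabilityMeasure (ProbabilityTheory.cond μ A) := cond_isProbabilityMeasure hA
  have h1 : (Measure.pi fun _ : Fin b => (ProbabilityTheory.cond μ A)) =
      ((μ A)⁻¹) ^ b • (Measure.pi fun _ : Fin b => μ.restrict A) :=
    pi_scale b (μ.restrict A) _ _ rfl
  have h2 : (Measure.pi fun _ : Fin s => Measure.pi fun _ : Fin b => (ProbabilityTheory.cond μ A)) =
      (((μ A)⁻¹) ^ b) ^ s •
        (Measure.pi fun _ : Fin s => Measure.pi fun _ : Fin b => μ.restrict A) :=
    pi_scale s _ _ _ h1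
  have h3 : (Measure.pi fun _ : Fin b => μ.restrict A) =
      (Measure.pi fun _ : Fin b => μ).restrict (Set.pi univ fun _ => A) :=
    (Measure.restrict_pi_pi (fun _ => μ) (fun _ => A)).symm
  have h4 : (Measure.pi fun _ : Fin s => Measure.pi fun _ : Fin b => μ.restrict A) =
      (Measure.pi fun _ : Fin s => Measure.pi fun _ : Fin b => μ).restrict
        (Set.pi univ fun _ => Set.pi univ fun _ => A) := by
    rw [h3]
    exact (Measure.restrict_pi_pi _ _).symm
  have h5 : (Set.pi univ fun _ : Fin s => Set.pi univ fun _ : Fin b => A) =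
      {c : Fin s → Fin b → X | ∀ i j, c i j ∈ A} := by
    ext c
    simp
  rw [h2, h4, h5, Measure.smul_apply, Measure.restrict_apply hΓ, smul_eq_mul, ← mul_assoc]
  have h6 : μ A ^ (s * b) * (((μ A)⁻¹) ^ b) ^ s = 1 := by
    rw [← pow_mul, mul_comm b s, ← mul_pow, ENNReal.mul_inv_cancel hA (measure_ne_top _ _),
      one_pow]
  rw [h6, one_mul]

end Pool.Agent.Helper80.BG
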