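import Pool.Agent.Helper80.BG.Block
import Pool.Agent.Helper80.BG.Pigeon

/-!
# Project BG (MP_a4e7e3): sampling with independent blocks

For `A + A ⊆ U`, `g(x) = E_{a ∈ A} 1_U(x + a)` and `h = g ^ s` with `s ≥ log (μ U / μ A)` there are
many translations moving `h` by at most `6/25` of its squared `L2` norm.
-/

set_option autoImplicit false

open MeasureTheory Set ProbabilityTheory
open scoped ENNReal

namespace Pool.Agent.Helper80.BG

variable {G : Type*} [AddCommGroup G] [MeasurableSpace G] [MeasurableAdd₂ G] [MeasurableNeg G]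

lemma integrable_of_abs_le {X : Type*} [MeasurableSpace X] {μ : Measure X} [IsFiniteMeasure μ]
    {f : X → ℝ} (C : ℝ) (hf : Measurable f) (hC : ∀ x, |f x| ≤ C) : Integrable f μ :=
  Integrable.of_bound (C := C) hf.aestronglyMeasurable
    (Filter.Eventually.of_forall fun x => by rw [Real.norm_eq_abs]; exact hC x)

/-- Log-convexity of the moments of a bounded nonnegative function. -/
lemma moments_logconvex {X : Type*} [MeasurableSpace X] (μ : Measure X) [IsFiniteMeasure μ]
    (g : X → ℝ) (hg : Measurable g) (hg0 : ∀ x, 0 ≤ g x) (hg1 : ∀ x, g x ≤ 1)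
    (hpos : ∀ t : ℕ, 0 < ∫ x, g x ^ t ∂μ) (t : ℕ) :
    (∫ x, g x ^ (t + 1) ∂μ) ^ 2 ≤ (∫ x, g x ^ t ∂μ) * ∫ x, g x ^ (t + 2) ∂μ := by
  have hint : ∀ t : ℕ, Integrable (fun x => g x ^ t) μ := fun t =>
    integrable_of_abs_le 1 (hg.pow_const t) fun x => by
      rw [abs_of_nonneg (pow_nonneg (hg0 x) t)]
      exact pow_le_one₀ (hg0 x) (hg1 x)
  set a := ∫ x, g x ^ t ∂μ with ha
  set b := ∫ x, g x ^ (t + 1) ∂μ with hb
  set c := ∫ x, g x ^ (t + 2) ∂μ with hc
  have h1 : 0 ≤ ∫ x, g x ^ t * (g x - b / a) ^ 2 ∂μ :=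
    integral_nonneg fun x => mul_nonneg (pow_nonneg (hg0 x) t) (sq_nonneg _)
  have h2 : ∫ x, g x ^ t * (g x - b / a) ^ 2 ∂μ = c - 2 * (b / a) * b + (b / a) ^ 2 * a := by
    have e : (fun x => g x ^ t * (g x - b / a) ^ 2) = fun x =>
        (g x ^ (t + 2) - 2 * (b / a) * g x ^ (t + 1)) + (b / a) ^ 2 * g x ^ t := by
      funext x
      ring
    have i1 : Integrable (fun x => g x ^ (t + 2) - 2 * (b / a) * g x ^ (t + 1)) μ :=
      (hint _).sub ((hint _).const_mul _)
    rw [e, integral_add i1 ((hint t).const_mul _), integral_sub (hint _) ((hint _).const_mul _),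
      integral_const_mul, integral_const_mul]
  have ha0 : 0 < a := hpos t
  rw [h2] at h1
  have h3 : c - 2 * (b / a) * b + (b / a) ^ 2 * a = (a * c - b ^ 2) / a := by
    field_simp
    ring
  rw [h3] at h1
  have h4 : 0 ≤ a * c - b ^ 2 := by
    by_contra h
    push Not at h
    have := div_neg_of_neg_of_pos h ha0
    linarith
  linarith

lemma numeric_sample (s : ℕ) (hs : 1 ≤ s) :
    (1 - 1 / ((60 * s : ℕ) : ℝ) + Real.exp 1 / ((60 * s : ℕ) : ℝ)) ^ s ≤ 103 / 100 := by
  have hs0 : (0 : ℝ) < s := by exact_mod_cast hs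
  have he : Real.exp 1 < 2.7182818286 := Real.exp_one_lt_d9
  set δ : ℝ := (Real.exp 1 - 1) / 60 with hδ
  have hδ1 : δ ≤ 0.0287 := by
    rw [hδ, div_le_iff₀ (by norm_num)]
    linarith
  have hδ0 : 0 ≤ δ := by
    have := Real.add_one_le_exp (1 : ℝ)
    rw [hδ]
    apply div_nonneg <;> linarith
  have h1 : 1 - 1 / ((60 * s : ℕ) : ℝ) + Real.exp 1 / ((60 * s : ℕ) : ℝ) = δ / s + 1 := by
    push_cast
    rw [hδ]
    field_simp
    ring
  rw [h1]
  calc (δ / s + 1) ^ s ≤ (Real.exp (δ / s)) ^ s :=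
        pow_le_pow_left₀ (by positivity) (Real.add_one_le_exp _) s
    _ = Real.exp δ := by
        rw [← Real.exp_nat_mul]
        congr 1
        field_simp
    _ ≤ 103 / 100 := by
        have h := Real.abs_exp_sub_one_sub_id_le (x := δ) (by
          rw [abs_of_nonneg hδ0]; linarith)
        have h' := (abs_le.mp h).2
        nlinarith

/-- The mean square deviation integrated over the group. -/
lemma block_moment_bound {X : Type*} [MeasurableSpace X] (μ : Measure X) [IsFiniteMeasure μ]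
    (g : X → ℝ) (hg : Measurable g) (hg0 : ∀ x, 0 ≤ g x) (hg1 : ∀ x, g x ≤ 1) (s : ℕ)
    (hs : 1 ≤ s)
    (hratio : ∀ t : ℕ, s ≤ t → ∫ x, g x ^ t ∂μ ≤ Real.exp 1 * ∫ x, g x ^ (t + 1) ∂μ) :
    ∫ x, ((g x ^ 2 + (g x - g x ^ 2) / ((60 * s : ℕ) : ℝ)) ^ s - (g x ^ s) ^ 2) ∂μ ≤
      3 / 100 * ∫ x, (g x ^ s) ^ 2 ∂μ := by
  set b : ℝ := ((60 * s : ℕ) : ℝ) with hb
  have hb1 : 1 ≤ b := by
    rw [hb]
    exact_mod_cast (by omega : 1 ≤ 60 * s)
  have hint : ∀ t : ℕ, Integrable (fun x => g x ^ t) μ := fun t =>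
    integrable_of_abs_le 1 (hg.pow_const t) fun x => by
      rw [abs_of_nonneg (pow_nonneg (hg0 x) t)]
      exact pow_le_one₀ (hg0 x) (hg1 x)
  have hdown : ∀ j, j ≤ s → ∫ x, g x ^ (s + (s - j)) ∂μ ≤
      Real.exp 1 ^ j * ∫ x, g x ^ (2 * s) ∂μ := by
    intro j
    induction j with
    | zero =>
      intro _
      rw [pow_zero, one_mul, Nat.sub_zero, two_mul]
    | succ j ih =>
      intro hj
      have h1 := ih (by omega)
      have h2 := hratio (s + (s - (j + 1))) (by omega)
      have h3 : s + (s - (j + 1)) + 1 = s + (s - j) := by omega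
      rw [h3] at h2
      calc ∫ x, g x ^ (s + (s - (j + 1))) ∂μ
          ≤ Real.exp 1 * ∫ x, g x ^ (s + (s - j)) ∂μ := h2
        _ ≤ Real.exp 1 * (Real.exp 1 ^ j * ∫ x, g x ^ (2 * s) ∂μ) :=
            mul_le_mul_of_nonneg_left h1 (Real.exp_pos _).le
        _ = Real.exp 1 ^ (j + 1) * ∫ x, g x ^ (2 * s) ∂μ := by ring
  have e1 : ∀ x, (g x ^ 2 + (g x - g x ^ 2) / b) ^ s =
      ∑ m ∈ Finset.range (s + 1), ((1 - 1 / b) ^ m * (1 / b) ^ (s - m) * (s.choose m : ℝ)) *
        g x ^ (s + m) := by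
    intro x
    have e2 : g x ^ 2 + (g x - g x ^ 2) / b = g x ^ 2 * (1 - 1 / b) + g x * (1 / b) := by ring
    rw [e2, add_pow]
    refine Finset.sum_congr rfl fun m hm => ?_
    have hm' : m ≤ s := by
      rw [Finset.mem_range] at hm
      omega
    rw [mul_pow, mul_pow, ← pow_mul]
    have e3 : g x ^ (s + m) = g x ^ (2 * m) * g x ^ (s - m) := by
      rw [← pow_add]
      congr 1
      omega
    rw [e3]
    ring
  have hM : ∫ x, (g x ^ s) ^ 2 ∂μ = ∫ x, g x ^ (2 * s) ∂μ := by
    refine integral_congr_ae (Filter.Eventually.of_forall fun x => ?_)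
    simp only
    rw [← pow_mul, mul_comm]
  have hI1 : Integrable (fun x => (g x ^ 2 + (g x - g x ^ 2) / b) ^ s) μ := by
    have : (fun x => (g x ^ 2 + (g x - g x ^ 2) / b) ^ s) = fun x =>
        ∑ m ∈ Finset.range (s + 1), ((1 - 1 / b) ^ m * (1 / b) ^ (s - m) * (s.choose m : ℝ)) *
        g x ^ (s + m) := funext e1
    rw [this]
    exact integrable_finsetSum _ fun m _ => (hint _).const_mul _
  have hI2 : Integrable (fun x => (g x ^ s) ^ 2) μ := by
    have : (fun x => (g x ^ s) ^ 2) = fun x => g x ^ (s * 2) := by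
      funext x
      rw [← pow_mul]
    rw [this]
    exact hint _
  rw [integral_sub hI1 hI2, hM]
  have h4 : ∫ x, (g x ^ 2 + (g x - g x ^ 2) / b) ^ s ∂μ ≤
      (1 - 1 / b + Real.exp 1 / b) ^ s * ∫ x, g x ^ (2 * s) ∂μ := by
    simp_rw [e1]
    rw [integral_finsetSum _ fun m _ => (hint _).const_mul _]
    simp_rw [integral_const_mul]
    have e4 : (1 - 1 / b + Real.exp 1 / b) ^ s * ∫ x, g x ^ (2 * s) ∂μ =
        ∑ m ∈ Finset.range (s + 1), ((1 - 1 / b) ^ m * (1 / b) ^ (s - m) * (s.choose m : ℝ)) *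
        (Real.exp 1 ^ (s - m) * ∫ x, g x ^ (2 * s) ∂μ) := by
      rw [add_pow, Finset.sum_mul]
      refine Finset.sum_congr rfl fun m _ => ?_
      have : (Real.exp 1 / b) ^ (s - m) = (1 / b) ^ (s - m) * Real.exp 1 ^ (s - m) := by
        rw [← mul_pow]
        congr 1
        ring
      rw [this]
      ring
    rw [e4]
    refine Finset.sum_le_sum fun m hm => ?_
    have hm' : m ≤ s := by
      rw [Finset.mem_range] at hm
      omega
    have h5 : 0 ≤ 1 - 1 / b := by
      rw [sub_nonneg, div_le_one (by linarith)]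
      exact hb1
    refine mul_le_mul_of_nonneg_left ?_ (by positivity)
    have h6 := hdown (s - m) (by omega)
    have h7 : s + (s - (s - m)) = s + m := by omega
    rwa [h7] at h6
  have h8 := numeric_sample s hs
  rw [← hb] at h8
  have h9 : 0 ≤ ∫ x, g x ^ (2 * s) ∂μ := integral_nonneg fun x => pow_nonneg (hg0 x) _
  have h10 := mul_le_mul_of_nonneg_right h8 h9
  linarith

/-- The product of `s` sample means of size `b` of translates of `u`. -/
noncomputable def samp {G : Type*} [Add G] (u : G → ℝ) (s b : ℕ) (c : Fin s → Fin b → G)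
    (x : G) : ℝ := ∏ i, (∑ j, u (x + c i j)) / b

omit [MeasurableNeg G] in
lemma samp_measurable (u : G → ℝ) (hu : Measurable u) (s b : ℕ) :
    Measurable (fun p : (Fin s → Fin b → G) × G => samp u s b p.1 p.2) := by
  unfold samp
  refine Finset.measurable_prod _ fun i _ => ?_
  refine Measurable.div_const (Finset.measurable_sum _ fun j _ => ?_) _
  refine hu.comp (measurable_snd.add ?_)
  exact (measurable_pi_apply j).comp ((measurable_pi_apply i).comp measurable_fst)

omit [MeasurableNeg G] in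
lemma samp_measurable' (u : G → ℝ) (hu : Measurable u) (s b : ℕ) (c : Fin s → Fin b → G) :
    Measurable (samp u s b c) := by
  unfold samp
  refine Finset.measurable_prod _ fun i _ => ?_
  refine Measurable.div_const (Finset.measurable_sum _ fun j _ => ?_) _
  exact hu.comp (measurable_add_const _)

lemma samp_abs_le {G : Type*} [Add G] (u : G → ℝ) (hu : ∀ x, |u x| ≤ 1) (s b : ℕ) (hb : 1 ≤ b)
    (c : Fin s → Fin b → G) (x : G) : |samp u s b c x| ≤ 1 := by
  unfold samp
  rw [Finset.abs_prod]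
  refine Finset.prod_le_one (fun i _ => abs_nonneg _) fun i _ => ?_
  rw [abs_div, Nat.abs_cast, div_le_one (by positivity)]
  refine (Finset.abs_sum_le_sum_abs _ _).trans ?_
  refine (Finset.sum_le_sum fun j _ => hu _).trans ?_
  simp

theorem sample (μ : Measure G) [IsProbabilityMeasure μ] [μ.IsAddLeftInvariant]
    (A U : Set G) (hA : MeasurableSet A) (hU : MeasurableSet U)
    (hsub : ∀ a ∈ A, ∀ b ∈ A, a + b ∈ U) (hpos : 0 < (μ A).toReal) (K : ℝ)
    (hK : (μ U).toReal ≤ K * (μ A).toReal) (s : ℕ) (hs : 1 ≤ s) (hKs : Real.log K ≤ s) :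
    ∃ h : G → ℝ, Measurable h ∧ (∀ x, |h x| ≤ 1) ∧ 0 < ∫ x, h x ^ 2 ∂μ ∧
      (∀ x, h x ≠ 0 → ∃ a ∈ A, x + a ∈ U) ∧
      MeasurableSet {t | ∫ x, (h (x + t) - h x) ^ 2 ∂μ ≤ 6 / 25 * ∫ x, h x ^ 2 ∂μ} ∧
      (μ A).toReal / (2 * K ^ (s * (60 * s))) ≤
        (μ {t | ∫ x, (h (x + t) - h x) ^ 2 ∂μ ≤ 6 / 25 * ∫ x, h x ^ 2 ∂μ}).toReal := by
  classical
  set α : ℝ := (μ A).toReal with hα
  have hA0 : μ A ≠ 0 := by
    intro h
    rw [hα, h] at hpos
    exact lt_irrefl _ hpos
  haveI : IsProbabilityMeasure (ProbabilityTheory.cond μ A) := cond_isProbabilityMeasure hA0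
  set ν : Measure G := ProbabilityTheory.cond μ A with hν
  have hνA : ∀ᵐ a ∂ν, a ∈ A := by
    rw [hν]
    exact ae_cond_mem hA
  set u : G → ℝ := U.indicator (fun _ => (1 : ℝ)) with hu
  have hum : Measurable u := measurable_const.indicator hU
  have hu01 : ∀ x, u x ^ 2 = u x := by
    intro x
    by_cases hx : x ∈ U
    · rw [hu, indicator_of_mem hx]; norm_num
    · rw [hu, indicator_of_notMem hx]; norm_num
  have hu0 : ∀ x, 0 ≤ u x := fun x => indicator_nonneg (fun _ _ => zero_le_one) x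
  have hu1 : ∀ x, u x ≤ 1 := by
    intro x
    by_cases hx : x ∈ U
    · rw [hu, indicator_of_mem hx]
    · rw [hu, indicator_of_notMem hx]; norm_num
  have huabs : ∀ x, |u x| ≤ 1 := fun x => by rw [abs_of_nonneg (hu0 x)]; exact hu1 x
  -- the function `g`
  set g : G → ℝ := fun x => ∫ a, u (x + a) ∂ν with hg
  have huadd : Measurable (fun p : G × G => u (p.1 + p.2)) :=
    hum.comp (measurable_fst.add measurable_snd)
  have hgm : Measurable g := huadd.stronglyMeasurable.integral_prod_right'.measurable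
  have huint : ∀ x, Integrable (fun a => u (x + a)) ν := fun x =>
    integrable_of_abs_le 1 (hum.comp (measurable_const_add x)) fun a => huabs _
  have hg0 : ∀ x, 0 ≤ g x := fun x => integral_nonneg fun a => hu0 _
  have hg1 : ∀ x, g x ≤ 1 := by
    intro x
    have h1 : g x ≤ ∫ _a, (1 : ℝ) ∂ν :=
      integral_mono (huint x) (integrable_const _) fun a => hu1 _
    simpa using h1
  have hgA : ∀ x ∈ A, g x = 1 := by
    intro x hx
    have h1 : g x = ∫ _a, (1 : ℝ) ∂ν := by
      refine integral_congr_ae ?_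
      filter_upwards [hνA] with a ha
      rw [hu, indicator_of_mem (hsub x hx a ha)]
    rw [h1]
    simp
  have hgsupp : ∀ x, g x ≠ 0 → ∃ a ∈ A, x + a ∈ U := by
    intro x hx
    by_contra hcon
    push Not at hcon
    apply hx
    have h1 : g x = ∫ _a, (0 : ℝ) ∂ν := by
      refine integral_congr_ae ?_
      filter_upwards [hνA] with a ha
      rw [hu, indicator_of_notMem (hcon a ha)]
    rw [h1]
    simp
  have hgint : ∀ t : ℕ, Integrable (fun x => g x ^ t) μ := fun t =>
    integrable_of_abs_le 1 (hgm.pow_const t) fun x => by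
      rw [abs_of_nonneg (pow_nonneg (hg0 x) t)]
      exact pow_le_one₀ (hg0 x) (hg1 x)
  have hglow : ∀ t : ℕ, α ≤ ∫ x, g x ^ t ∂μ := by
    intro t
    have h1 : ∫ x, A.indicator (fun _ => (1 : ℝ)) x ∂μ = α := by
      rw [integral_indicator hA, setIntegral_const, smul_eq_mul, mul_one]
      rfl
    rw [← h1]
    refine integral_mono ((integrable_const _).indicator hA) (hgint t) fun x => ?_
    by_cases hx : x ∈ A
    · rw [indicator_of_mem hx]
      simp only
      rw [hgA x hx, one_pow]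
    · rw [indicator_of_notMem hx]
      exact pow_nonneg (hg0 x) t
  have hgmean : ∫ x, g x ^ 1 ∂μ ≤ K * α := by
    have h1 : ∫ x, g x ^ 1 ∂μ = (μ U).toReal := by
      have h2 : ∫ x, g x ^ 1 ∂μ = ∫ x, ∫ a, u (x + a) ∂ν ∂μ := by
        refine integral_congr_ae (Filter.Eventually.of_forall fun x => ?_)
        simp only [pow_one, hg]
      rw [h2, integral_integral_swap]
      · have h3 : ∀ a, ∫ x, u (x + a) ∂μ = (μ U).toReal := by
          intro a
          rw [integral_add_right_eq_self (fun x => u x) a, hu, integral_indicator hU,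
            setIntegral_const, smul_eq_mul, mul_one]
          rfl
        simp_rw [h3]
        simp
      · exact integrable_of_abs_le 1 huadd fun p => huabs _
    rw [h1]
    exact hK
  have hratio := moment_ratio (fun t => ∫ x, g x ^ t ∂μ) (fun t => hpos.trans_le (hglow t))
    (fun t => moments_logconvex μ g hgm hg0 hg1 (fun t => hpos.trans_le (hglow t)) t)
    α K hpos hgmean hglow s hs hKs
  -- the function `h`
  set h : G → ℝ := fun x => g x ^ s with hh
  have hhm : Measurable h := hgm.pow_const s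
  have hh0 : ∀ x, 0 ≤ h x := fun x => pow_nonneg (hg0 x) s
  have hh1 : ∀ x, h x ≤ 1 := fun x => pow_le_one₀ (hg0 x) (hg1 x)
  have hhabs : ∀ x, |h x| ≤ 1 := fun x => by rw [abs_of_nonneg (hh0 x)]; exact hh1 x
  set M : ℝ := ∫ x, h x ^ 2 ∂μ with hM
  have hMpos : 0 < M := by
    have h1 := hglow (s * 2)
    have h2 : M = ∫ x, g x ^ (s * 2) ∂μ := by
      rw [hM]
      refine integral_congr_ae (Filter.Eventually.of_forall fun x => ?_)
      simp only [hh]
      rw [← pow_mul]
    rw [h2]
    exact hpos.trans_le h1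
  set b : ℕ := 60 * s with hb
  have hb1 : 1 ≤ b := by omega
  set P : Measure (Fin s → Fin b → G) := Measure.pi fun _ => Measure.pi fun _ => ν with hP
  set κ : Measure (Fin s → Fin b → G) := Measure.pi fun _ => Measure.pi fun _ => μ with hκ
  set D : (Fin s → Fin b → G) → ℝ := fun c => ∫ x, (samp u s b c x - h x) ^ 2 ∂μ with hD
  have hsm := samp_measurable u hum s b
  have hdiffm : Measurable (fun p : (Fin s → Fin b → G) × G =>
      (samp u s b p.1 p.2 - h p.2) ^ 2) := (hsm.sub (hhm.comp measurable_snd)).pow_const 2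
  have hdiffb : ∀ (c : Fin s → Fin b → G) (x y : G), |(samp u s b c x - h y) ^ 2| ≤ 4 := by
    intro c x y
    have h1 := samp_abs_le u huabs s b hb1 c x
    have h2 := hhabs y
    rw [abs_of_nonneg (sq_nonneg _)]
    rw [abs_le] at h1 h2
    nlinarith
  have hDm : Measurable D := hdiffm.stronglyMeasurable.integral_prod_right'.measurable
  have hD0 : ∀ c, 0 ≤ D c := fun c => integral_nonneg fun x => sq_nonneg _
  have hDint : Integrable D P := by
    refine integrable_of_abs_le 4 hDm fun c => ?_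
    have h1 : ‖∫ x, (samp u s b c x - h x) ^ 2 ∂μ‖ ≤ 4 * μ.real univ :=
      norm_integral_le_of_norm_le_const (Filter.Eventually.of_forall fun x => by
        rw [Real.norm_eq_abs]; exact hdiffb c x x)
    rw [Real.norm_eq_abs, probReal_univ, mul_one] at h1
    exact h1
  have hDE : ∫ c, D c ∂P ≤ 3 / 100 * M := by
    have h1 : ∫ c, D c ∂P = ∫ x, ∫ c, (samp u s b c x - h x) ^ 2 ∂P ∂μ := by
      rw [hD]
      exact integral_integral_swap (integrable_of_abs_le 4 hdiffm fun p => hdiffb _ _ _)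
    have h2 : ∀ x, ∫ c, (samp u s b c x - h x) ^ 2 ∂P =
        (g x ^ 2 + (g x - g x ^ 2) / b) ^ s - (g x ^ s) ^ 2 := by
      intro x
      exact block_sq ν (f := fun a => u (x + a)) (hum.comp (measurable_const_add x))
        (fun a => hu01 _) s b hb1
    rw [h1]
    simp_rw [h2]
    exact block_moment_bound μ g hgm hg0 hg1 s hs hratio
  -- Markov
  set Γ' : Set (Fin s → Fin b → G) := {c | D c ≤ 6 / 100 * M} with hΓ'
  have hΓ'm : MeasurableSet Γ' := measurableSet_le hDm measurable_const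
  have hΓ'P : 1 / 2 ≤ (P Γ').toReal := by
    have h1 := mul_meas_ge_le_integral_of_nonneg (μ := P) (f := D)
      (Filter.Eventually.of_forall hD0) hDint (6 / 100 * M)
    have h2 : P.real Γ'ᶜ ≤ P.real {c | 6 / 100 * M ≤ D c} := by
      refine measureReal_mono fun c hc => ?_
      have : ¬ (D c ≤ 6 / 100 * M) := hc
      exact (not_le.mp this).le
    have h3 : 6 / 100 * M * P.real Γ'ᶜ ≤ 3 / 100 * M :=
      (mul_le_mul_of_nonneg_left h2 (by positivity)).trans (h1.trans hDE)
    have h4 : P.real Γ'ᶜ ≤ 1 / 2 := by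
      by_contra hcon
      push Not at hcon
      nlinarith
    rw [probReal_compl_eq_one_sub hΓ'm] at h4
    have h5 : (P Γ').toReal = P.real Γ' := rfl
    rw [h5]
    linarith
  set Γ : Set (Fin s → Fin b → G) := Γ' ∩ {c | ∀ i j, c i j ∈ A} with hΓ
  have hrect : ∀ V : Set G, MeasurableSet V →
      MeasurableSet {c : Fin s → Fin b → G | ∀ i j, c i j ∈ V} := by
    intro V hV
    have : {c : Fin s → Fin b → G | ∀ i j, c i j ∈ V} =
        ⋂ i, ⋂ j, (fun c : Fin s → Fin b → G => c i j) ⁻¹' V := by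
      ext c
      simp
    rw [this]
    refine MeasurableSet.iInter fun i => MeasurableSet.iInter fun j => ?_
    exact ((measurable_pi_apply j).comp (measurable_pi_apply i)) hV
  have hΓm : MeasurableSet Γ := hΓ'm.inter (hrect A hA)
  have hκΓ : κ Γ = μ A ^ (s * b) * P Γ' := pi_pi_cond s b μ A hA0 hA Γ' hΓ'm
  set W : Set (Fin s → Fin b → G) := {c | ∀ i j, c i j ∈ U} with hW
  have hWm : MeasurableSet W := hrect U hU
  have hκW : κ W = μ U ^ (s * b) := by
    have h1 : W = Set.pi univ fun _ : Fin s => Set.pi univ fun _ : Fin b => U := by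
      ext c
      simp [hW]
    rw [h1, hκ, Measure.pi_pi]
    simp only [Measure.pi_pi, Finset.prod_const, Finset.card_univ, Fintype.card_fin]
    rw [← pow_mul, mul_comm]
  have hPΓ'0 : P Γ' ≠ 0 := by
    intro h0
    rw [h0] at hΓ'P
    norm_num at hΓ'P
  have hκΓ0 : κ Γ ≠ 0 := by
    rw [hκΓ]
    exact mul_ne_zero (pow_ne_zero _ hA0) hPΓ'0
  obtain ⟨z, hz⟩ := pigeon μ κ (fun t => fun _ _ => t)
    (measurable_pi_lambda _ fun i => measurable_pi_lambda _ fun j => measurable_id) A hA Γ W
    hΓm hWm (fun a ha t ht i j => hsub _ (ha.2 i j) _ ht)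
    (pos_iff_ne_zero.mpr (mul_ne_zero hA0 hκΓ0))
  set T : Set G := {t | t ∈ A ∧ z - (fun _ _ => t) ∈ Γ} with hT
  -- points of `T` are good
  have hTgood : ∀ t ∈ T, ∫ x, (samp u s b z x - h (x + t)) ^ 2 ∂μ ≤ 6 / 100 * M := by
    intro t ht
    have h1 : D (z - fun _ _ => t) ≤ 6 / 100 * M := ht.2.1
    have h2 : D (z - fun _ _ => t) = ∫ x, (samp u s b z x - h (x + t)) ^ 2 ∂μ := by
      rw [hD]
      simp only
      rw [← integral_add_right_eq_self (fun x => (samp u s b (z - fun _ _ => t) x - h x) ^ 2) t]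
      refine integral_congr_ae (Filter.Eventually.of_forall fun x => ?_)
      simp only
      have h3 : samp u s b (z - fun _ _ => t) (x + t) = samp u s b z x := by
        unfold samp
        refine Finset.prod_congr rfl fun i _ => ?_
        congr 1
        refine Finset.sum_congr rfl fun j _ => ?_
        congr 1
        simp only [Pi.sub_apply]
        abel
      rw [h3]
    rw [← h2]
    exact h1
  set S : Set G := {t | ∫ x, (h (x + t) - h x) ^ 2 ∂μ ≤ 6 / 25 * M} with hS
  have hSm : MeasurableSet S := by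
    have h1 : Measurable (fun t => ∫ x, (h (x + t) - h x) ^ 2 ∂μ) := by
      have : Measurable (fun p : G × G => (h (p.2 + p.1) - h p.2) ^ 2) :=
        ((hhm.comp (measurable_snd.add measurable_fst)).sub
          (hhm.comp measurable_snd)).pow_const 2
      exact this.stronglyMeasurable.integral_prod_right'.measurable
    exact measurableSet_le h1 measurable_const
  have hdiff : ∀ t ∈ T, ∀ t0 ∈ T, t - t0 ∈ S := by
    intro t ht t0 ht0
    have h1 := hTgood t ht
    have h2 := hTgood t0 ht0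
    change ∫ x, (h (x + (t - t0)) - h x) ^ 2 ∂μ ≤ 6 / 25 * M
    have h3 : ∫ x, (h (x + (t - t0)) - h x) ^ 2 ∂μ = ∫ x, (h (x + t) - h (x + t0)) ^ 2 ∂μ := by
      rw [← integral_add_right_eq_self (fun x => (h (x + (t - t0)) - h x) ^ 2) t0]
      refine integral_congr_ae (Filter.Eventually.of_forall fun x => ?_)
      simp only
      have h4 : x + t0 + (t - t0) = x + t := by abel
      rw [h4]
    rw [h3]
    have hsz : Measurable (samp u s b z) := samp_measurable' u hum s b z
    have hi : ∀ t, Integrable (fun x => (samp u s b z x - h (x + t)) ^ 2) μ := fun t =>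
      integrable_of_abs_le 4 ((hsz.sub (hhm.comp (measurable_add_const t))).pow_const 2)
        fun x => hdiffb _ _ _
    have h5 : ∫ x, (h (x + t) - h (x + t0)) ^ 2 ∂μ ≤
        ∫ x, (2 * (samp u s b z x - h (x + t)) ^ 2 +
          2 * (samp u s b z x - h (x + t0)) ^ 2) ∂μ := by
      refine integral_mono ?_ (((hi t).const_mul 2).add ((hi t0).const_mul 2)) fun x => ?_
      · refine integrable_of_abs_le 4 (((hhm.comp (measurable_add_const t)).sub
          (hhm.comp (measurable_add_const t0))).pow_const 2) fun x => ?_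
        have e1 := hhabs (x + t)
        have e2 := hhabs (x + t0)
        rw [abs_of_nonneg (sq_nonneg _)]
        rw [abs_le] at e1 e2
        nlinarith
      · simp only
        nlinarith [sq_nonneg ((samp u s b z x - h (x + t)) + (samp u s b z x - h (x + t0)))]
    refine h5.trans ?_
    rw [integral_add ((hi t).const_mul 2) ((hi t0).const_mul 2), integral_const_mul,
      integral_const_mul]
    linarith
  -- `T` is not empty
  have hprodpos : μ A * κ Γ ≠ 0 := mul_ne_zero hA0 hκΓ0
  have hTpos : μ T ≠ 0 := by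
    intro h0
    rw [h0, mul_zero] at hz
    exact hprodpos (le_antisymm hz bot_le)
  obtain ⟨t0, ht0⟩ := nonempty_of_measure_ne_zero hTpos
  have hTS : μ T ≤ μ S := by
    have h1 : μ ((fun x => x + (-t0)) ⁻¹' S) = μ S := measure_preimage_add_right μ _ S
    rw [← h1]
    refine measure_mono fun t ht => ?_
    simp only [mem_preimage, ← sub_eq_add_neg]
    exact hdiff t ht t0 ht0
  refine ⟨h, hhm, hhabs, hMpos, ?_, hSm, ?_⟩
  · intro x hx
    apply hgsupp
    intro h0
    apply hx
    simp only [hh]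
    rw [h0, zero_pow (by omega)]
  · -- the numbers
    have hKpos : 0 < K := by
      by_contra hcon
      have h1 : K * α ≤ 0 := mul_nonpos_of_nonpos_of_nonneg (not_lt.mp hcon) hpos.le
      have h2 := hgmean
      have h3 := hglow 1
      linarith
    have h1 : α * (α ^ (s * b) * (1 / 2)) ≤ (K * α) ^ (s * b) * (μ S).toReal := by
      have h2 : (μ A * κ Γ).toReal ≤ (κ W * μ T).toReal :=
        ENNReal.toReal_mono (ENNReal.mul_ne_top (measure_ne_top _ _) (measure_ne_top _ _)) hz
      rw [ENNReal.toReal_mul, ENNReal.toReal_mul, hκΓ, hκW, ENNReal.toReal_mul,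
        ENNReal.toReal_pow, ENNReal.toReal_pow, ← hα] at h2
      have h3 : (μ T).toReal ≤ (μ S).toReal := ENNReal.toReal_mono (measure_ne_top _ _) hTS
      calc α * (α ^ (s * b) * (1 / 2)) ≤ α * (α ^ (s * b) * (P Γ').toReal) := by
            refine mul_le_mul_of_nonneg_left ?_ hpos.le
            exact mul_le_mul_of_nonneg_left hΓ'P (by positivity)
        _ ≤ (μ U).toReal ^ (s * b) * (μ T).toReal := h2
        _ ≤ (K * α) ^ (s * b) * (μ S).toReal :=
            mul_le_mul (pow_le_pow_left₀ ENNReal.toReal_nonneg hK _) h3 ENNReal.toReal_nonneg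
              (by positivity)
    rw [div_le_iff₀ (by positivity)]
    rw [mul_pow] at h1
    have h4 : 0 < α ^ (s * b) := by positivity
    have h5 : α * (1 / 2) ≤ K ^ (s * b) * (μ S).toReal := by
      have h6 : α ^ (s * b) * (α * (1 / 2)) ≤ α ^ (s * b) * (K ^ (s * b) * (μ S).toReal) := by
        linarith
      exact le_of_mul_le_mul_left h6 h4
    change α ≤ (μ S).toReal * (2 * K ^ (s * b))
    linarith

end Pool.Agent.Helper80.BG
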